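import Pool.Agent.H96.Nod.Main
import Pool.Agent.H96.DField

/-!
# The function field of a hypersurface over the rational numbers
-/

set_option autoImplicit false
set_option linter.unusedSectionVars false

namespace Pool.Agent.H96.Nod

open MvPolynomial Pool.Agent.H96.VL

/-- The dehomogenization `F(1, t₀, …, t_{n-1})` over the rational numbers. -/
noncomputable def deh {n : ℕ} (F : MvPolynomial (Fin (n + 1)) ℤ) : MvPolynomial (Fin n) ℚ :=
  aeval (Fin.cons 1 X : Fin (n + 1) → MvPolynomial (Fin n) ℚ) F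

/-- `K` is the field of fractions of the quotient by `f`. -/
structure QField {n : ℕ} (f : MvPolynomial (Fin n) ℚ) (K : Type) [Field K] [Algebra ℚ K]
    (ψ : MvPolynomial (Fin n) ℚ →ₐ[ℚ] K) : Prop where
  ker : ∀ h, ψ h = 0 ↔ h ∈ Ideal.span {f}
  surj : ∀ z, ∃ h g, ψ g ≠ 0 ∧ z = ψ h / ψ g

variable {n : ℕ} {f : MvPolynomial (Fin n) ℚ} {K : Type} [Field K] [Algebra ℚ K]
  {ψ : MvPolynomial (Fin n) ℚ →ₐ[ℚ] K}

theorem exists_degreeOf {f : MvPolynomial (Fin n) ℚ} (hf : Irreducible f) :
    ∃ j, degreeOf j f ≠ 0 := by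
  by_contra hcon
  push Not at hcon
  have h1 : f.vars = ∅ := by
    ext j
    simp [mem_vars_iff_degreeOf_ne_zero, hcon j]
  obtain ⟨a, ha⟩ : ∃ a, f = C a := ⟨_, (vars_eq_empty_iff_eq_C (p := f)).mp h1⟩
  by_cases ha0 : a = 0
  · rw [ha0, C_0] at ha
    exact hf.ne_zero ha
  · apply hf.not_isUnit
    rw [ha]
    exact (isUnit_iff_ne_zero.mpr ha0).map C

theorem QField.trdeg_le (h : QField f K ψ) (hf : Irreducible f) :
    (n : Cardinal.{0}) ≤ Algebra.trdeg ℚ K + 1 := by
  classical
  obtain ⟨j, hj⟩ := exists_degreeOf hf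
  have hind : AlgebraicIndependent ℚ fun i : {i : Fin n // i ≠ j} => ψ (X (i : Fin n)) := by
    rw [AlgebraicIndependent]
    rw [injective_iff_map_eq_zero]
    intro g hg
    have h1 : aeval (fun i : {i : Fin n // i ≠ j} => ψ (X (i : Fin n))) g =
        ψ (rename Subtype.val g) := by
      have h2 : ((ψ.comp (rename Subtype.val : MvPolynomial {i : Fin n // i ≠ j} ℚ →ₐ[ℚ] _)) :
          MvPolynomial {i : Fin n // i ≠ j} ℚ →ₐ[ℚ] K) =
          aeval (fun i : {i : Fin n // i ≠ j} => ψ (X (i : Fin n))) := by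
        apply MvPolynomial.algHom_ext
        intro i
        rw [aeval_X, AlgHom.comp_apply, rename_X]
      rw [← h2, AlgHom.comp_apply]
    rw [h1, h.ker, Ideal.mem_span_singleton] at hg
    by_contra hg0
    have hr0 : rename (Subtype.val : {i : Fin n // i ≠ j} → Fin n) g ≠ 0 := by
      intro h0
      exact hg0 (rename_injective _ Subtype.val_injective (by rw [h0, map_zero]))
    obtain ⟨r, hr⟩ := hg
    have hf0 : f ≠ 0 := hf.ne_zero
    have hr0' : r ≠ 0 := by rintro h0; rw [h0, mul_zero] at hr; exact hr0 hr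
    have h2 := degreeOf_mul_eq (n := j) hf0 hr0'
    rw [← hr] at h2
    have h4 : degreeOf j (rename (Subtype.val : {i : Fin n // i ≠ j} → Fin n) g) = 0 := by
      by_contra hne
      have h5 := mem_vars_iff_degreeOf_ne_zero.mpr hne
      obtain ⟨i, -, hi⟩ := mem_vars_rename _ _ h5
      exact i.2 hi
    omega
  have h1 := hind.cardinalMk_le_trdeg
  have h2 : Cardinal.mk {i : Fin n // i ≠ j} = ((n - 1 : ℕ) : Cardinal.{0}) := by
    rw [Cardinal.mk_fintype, Fintype.card_subtype_compl, Fintype.card_subtype_eq, Fintype.card_fin]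
  rw [h2] at h1
  have h3 : 1 ≤ n := by have := j.2; omega
  calc (n : Cardinal.{0}) = ((n - 1 : ℕ) : Cardinal.{0}) + 1 := by
        have : n = (n - 1) + 1 := by omega
        conv_lhs => rw [this]
        push_cast; rfl
    _ ≤ _ := by gcongr

theorem aeval_crd (F : MvPolynomial (Fin (n + 1)) ℤ) :
    aeval (fun i => ψ ((Fin.cons 1 X : Fin (n + 1) → MvPolynomial (Fin n) ℚ) i)) F = ψ (deh F) := by
  rw [deh]
  induction F using MvPolynomial.induction_on with
  | C r => simp
  | add P Q hP hQ => rw [map_add, map_add, map_add, hP, hQ]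
  | mul_X P i hP => rw [map_mul, map_mul, map_mul, hP, aeval_X, aeval_X]

open Pool.Agent.H19.OG

/-- **Main theorem**, for hypersurfaces over the rational numbers. -/
theorem fracCharts {n : ℕ} (F : MvPolynomial (Fin (n + 1)) ℤ) (d : ℕ) (hF : F.IsHomogeneous d)
    (hirr : Irreducible (deh F)) (D : ℤ) (hD : D ≠ 0) (e : ℕ)
    (hDe : ∀ i, C D * X i ^ e ∈ Ideal.span ({F} ∪ Set.range fun j => pderiv j F))
    (hnod : ∀ (k : Type) [Field k] (a : Fin (n + 1) → k) (i : Fin (n + 1)), a i = 1 →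
      aeval a F = 0 → (∀ j, aeval a (pderiv j F) = 0) →
      (Matrix.of fun (j l : {j // j ≠ i}) =>
        aeval a (pderiv (j : Fin (n + 1)) (pderiv (l : Fin (n + 1)) F))).det ≠ 0) :
    FracCharts (MvPolynomial (Fin n) ℚ ⧸ Ideal.span {deh F}) := by
  intro K _ alg hfr
  let Q := MvPolynomial (Fin n) ℚ ⧸ Ideal.span {deh F}
  let ψ₀ : MvPolynomial (Fin n) ℚ →+* K :=
    (algebraMap Q K).comp (Ideal.Quotient.mk (Ideal.span {deh F}))
  let algQ : Algebra ℚ K := (ψ₀.comp MvPolynomial.C).toAlgebra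
  let ψ : MvPolynomial (Fin n) ℚ →ₐ[ℚ] K := { ψ₀ with commutes' := fun r => rfl }
  have hinj : Function.Injective (algebraMap Q K) := IsFractionRing.injective Q K
  have hnt : Nontrivial Q := hinj.isDomain (algebraMap Q K) |>.toNontrivial
  have hψ : QField (deh F) K ψ := by
    constructor
    · intro h
      constructor
      · intro h0
        have h1 : algebraMap Q K (Ideal.Quotient.mk _ h) = 0 := h0
        rw [map_eq_zero_iff _ hinj] at h1
        exact Ideal.Quotient.eq_zero_iff_mem.mp h1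
      · intro h0
        show algebraMap Q K (Ideal.Quotient.mk _ h) = 0
        have h1 : (Ideal.Quotient.mk (Ideal.span {deh F}) h) = 0 :=
          Ideal.Quotient.eq_zero_iff_mem.mpr h0
        rw [h1, map_zero]
    · intro z
      obtain ⟨u, v, hv, huv⟩ := IsFractionRing.div_surjective (A := Q) z
      obtain ⟨u', hu'⟩ := Ideal.Quotient.mk_surjective u
      obtain ⟨v', hv'⟩ := Ideal.Quotient.mk_surjective v
      refine ⟨u', v', ?_, ?_⟩
      · show algebraMap Q K (Ideal.Quotient.mk _ v') ≠ 0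
        rw [hv']
        exact (map_ne_zero_iff _ hinj).mpr (nonZeroDivisors.ne_zero hv)
      · show z = algebraMap Q K (Ideal.Quotient.mk _ u') / algebraMap Q K (Ideal.Quotient.mk _ v')
        rw [hu', hv', huv]
  have : CharZero K := charZero_of_injective_algebraMap (algebraMap ℚ K).injective
  have hclos : Subfield.closure (Set.range fun i =>
      ψ ((Fin.cons 1 X : Fin (n + 1) → MvPolynomial (Fin n) ℚ) i)) = ⊤ := by
    set S := Subfield.closure (Set.range fun i =>
      ψ ((Fin.cons 1 X : Fin (n + 1) → MvPolynomial (Fin n) ℚ) i)) with hS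
    have hX : ∀ j : Fin n, ψ (X j) ∈ S := by
      intro j
      have h1 : ψ ((Fin.cons 1 X : Fin (n + 1) → MvPolynomial (Fin n) ℚ) j.succ) ∈ S :=
        Subfield.subset_closure ⟨j.succ, rfl⟩
      rwa [Fin.cons_succ] at h1
    have hψ' : ∀ g, ψ g ∈ S := by
      intro g
      induction g using MvPolynomial.induction_on with
      | C r =>
        have h1 := ψ.commutes r
        rw [MvPolynomial.algebraMap_eq] at h1
        rw [h1]; exact Pool.Agent.H96.Diag.ratCast_mem_subfield S r
      | add P Q hP hQ => rw [map_add]; exact S.add_mem hP hQ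
      | mul_X P i hP => rw [map_mul]; exact S.mul_mem hP (hX i)
    rw [eq_top_iff]
    intro z _
    obtain ⟨u, v, -, rfl⟩ := hψ.surj z
    exact S.div_mem (hψ' u) (hψ' v)
  refine hasCharts F d hF (fun i => ψ ((Fin.cons 1 X : Fin (n + 1) → MvPolynomial (Fin n) ℚ) i))
    (i₃ := 0) ?_ ?_ hclos ?_ D hD e hDe hnod
  · show ψ ((Fin.cons 1 X : Fin (n + 1) → MvPolynomial (Fin n) ℚ) 0) = 1
    rw [Fin.cons_zero, map_one]
  · rw [aeval_crd, hψ.ker]
    exact Ideal.mem_span_singleton_self _
  · have h1 := hψ.trdeg_le hirr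
    have h2 : Algebra.trdeg ℤ K = Algebra.trdeg ℚ K := Pool.Agent.H96.Diag.trdeg_int_eq
    rw [h2, Nat.card_eq_fintype_card, Fintype.card_fin]
    push_cast
    calc (n : Cardinal.{0}) + 1 ≤ (Algebra.trdeg ℚ K + 1) + 1 := by gcongr
      _ = Algebra.trdeg ℚ K + 2 := by rw [add_assoc]; norm_num

end Pool.Agent.H96.Nod
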