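import Pool.Agent.H96.Nod.Morse2
import Pool.Agent.H96.DSys2

/-!
# The chart at a nondegenerate singular point
-/

set_option autoImplicit false
set_option linter.unusedSectionVars false

namespace Pool.Agent.H96.Nod

open MvPolynomial Pool.Agent.H96.VL Pool.Agent.H96.Reg IsLocalRing

variable {ι : Type} [Fintype ι] [DecidableEq ι]

/-- The variables of the chart. -/
abbrev Sg (ι : Type) : Type := (ι ⊕ ι) ⊕ Bool

/-- The indices of the relations. -/
abbrev Kp (ι : Type) : Type := ι ⊕ (Bool ⊕ Bool)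

/-- The coordinates, the ratios of the partial derivatives and the two extra variables. -/
def zz {K : Type} (t T : ι → K) (β α : K) : Sg ι → K
  | .inl (.inl i) => t i
  | .inl (.inr i) => T i
  | .inr false => β
  | .inr true => α

/-- Inclusion of polynomials in the coordinates. -/
noncomputable def inc (f : MvPolynomial ι ℤ) : MvPolynomial (Sg ι) ℤ :=
  rename (fun i => Sum.inl (Sum.inl i)) f

noncomputable def TX (i : ι) : MvPolynomial (Sg ι) ℤ := X (Sum.inl (Sum.inr i))
noncomputable def tX (i : ι) : MvPolynomial (Sg ι) ℤ := X (Sum.inl (Sum.inl i))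
noncomputable def bX : MvPolynomial (Sg ι) ℤ := X (Sum.inr false)
noncomputable def aX : MvPolynomial (Sg ι) ℤ := X (Sum.inr true)

/-- The quadratic form. -/
noncomputable def QQ {i₀ : ι} (q : Aff i₀ → Aff i₀ → MvPolynomial ι ℤ) : MvPolynomial (Sg ι) ℤ :=
  ∑ i, ∑ j, inc (q i j) * (TX (i : ι) * TX (j : ι))

/-- The relations. -/
noncomputable def rel (F : MvPolynomial ι ℤ) (i₀ i₁ : ι) (p j e : ℕ)
    (q : Aff i₀ → Aff i₀ → MvPolynomial ι ℤ) (r : MvPolynomial ι ℤ) : Kp ι → MvPolynomial (Sg ι) ℤ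
  | .inl i => if i = i₀ then tX i₀ - 1 else
      inc (pderiv i F) - (p : MvPolynomial (Sg ι) ℤ) ^ j * (bX * TX i)
  | .inr (.inl false) => TX i₀
  | .inr (.inl true) => TX i₁ - 1
  | .inr (.inr false) => aX * bX - (p : MvPolynomial (Sg ι) ℤ)
  | .inr (.inr true) => bX ^ (2 - e) * QQ q + inc r * aX ^ e

section Eval

variable {L : Type} [CommRing L]

theorem aeval_inc (t T : ι → L) (β α : L) (f : MvPolynomial ι ℤ) :
    aeval (zz t T β α) (inc f) = aeval t f := by
  rw [inc, aeval_rename]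
  rfl

theorem aeval_TX (t T : ι → L) (β α : L) (i : ι) : aeval (zz t T β α) (TX i) = T i := by
  rw [TX, aeval_X]; rfl

theorem aeval_tX (t T : ι → L) (β α : L) (i : ι) : aeval (zz t T β α) (tX i) = t i := by
  rw [tX, aeval_X]; rfl

theorem aeval_bX (t T : ι → L) (β α : L) : aeval (zz t T β α) (bX : MvPolynomial (Sg ι) ℤ) = β := by
  rw [bX, aeval_X]; rfl

theorem aeval_aX (t T : ι → L) (β α : L) : aeval (zz t T β α) (aX : MvPolynomial (Sg ι) ℤ) = α := by
  rw [aX, aeval_X]; rfl

theorem aeval_QQ {i₀ : ι} (q : Aff i₀ → Aff i₀ → MvPolynomial ι ℤ) (t T : ι → L) (β α : L) :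
    aeval (zz t T β α) (QQ q) = ∑ i, ∑ j, aeval t (q i j) * (T (i : ι) * T (j : ι)) := by
  rw [QQ, map_sum]
  refine Finset.sum_congr rfl fun i _ => ?_
  rw [map_sum]
  refine Finset.sum_congr rfl fun j _ => ?_
  rw [map_mul, map_mul, aeval_inc, aeval_TX, aeval_TX]

end Eval

theorem vars_pderiv_inc {v : Sg ι} (hv : ∀ i : ι, v ≠ Sum.inl (Sum.inl i)) (f : MvPolynomial ι ℤ) :
    pderiv v (inc f) = 0 := by
  induction f using MvPolynomial.induction_on with
  | C n => rw [inc, rename_C, pderiv_C]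
  | add P Q hP hQ =>
    rw [inc, map_add, map_add]
    rw [inc] at hP hQ
    rw [hP, hQ, add_zero]
  | mul_X P i hP =>
    rw [inc] at hP
    rw [inc, map_mul, Derivation.leibniz, hP, rename_X, pderiv_X, Pi.single_eq_of_ne (hv i).symm,
      smul_zero, smul_zero, add_zero]

theorem pderiv_inc (l : ι) (f : MvPolynomial ι ℤ) :
    pderiv (Sum.inl (Sum.inl l) : Sg ι) (inc f) = inc (pderiv l f) := by
  induction f using MvPolynomial.induction_on with
  | C n => rw [inc, rename_C, pderiv_C, pderiv_C, inc, map_zero]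
  | add P Q hP hQ =>
    rw [inc] at hP hQ
    rw [inc, map_add, map_add, hP, hQ, map_add, inc, inc, inc, map_add]
  | mul_X P i hP =>
    rw [inc] at hP
    rw [inc, map_mul, Derivation.leibniz, hP, Derivation.leibniz, rename_X, pderiv_X, pderiv_X]
    have h1 : (Pi.single (Sum.inl (Sum.inl l) : Sg ι) (1 : MvPolynomial (Sg ι) ℤ) :
        Sg ι → MvPolynomial (Sg ι) ℤ) (Sum.inl (Sum.inl i)) =
        inc ((Pi.single l (1 : MvPolynomial ι ℤ) : ι → MvPolynomial ι ℤ) i) := by
      by_cases hil : i = l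
      · subst hil
        rw [Pi.single_eq_same, Pi.single_eq_same, inc, map_one]
      · rw [Pi.single_eq_of_ne hil, Pi.single_eq_of_ne, inc, map_zero]
        intro h
        exact hil (Sum.inl_injective (Sum.inl_injective h))
    rw [h1]
    simp only [inc, smul_eq_mul, map_add, map_mul, rename_X]

theorem pderiv_natCast_mul (v : Sg ι) (n m : ℕ) (f : MvPolynomial (Sg ι) ℤ) :
    pderiv v ((n : MvPolynomial (Sg ι) ℤ) ^ m * f) = (n : MvPolynomial (Sg ι) ℤ) ^ m * pderiv v f := by
  have : (n : MvPolynomial (Sg ι) ℤ) ^ m = ((n ^ m : ℕ) : MvPolynomial (Sg ι) ℤ) := by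
    push_cast; rfl
  rw [this, Derivation.leibniz, Derivation.map_natCast, smul_eq_mul, smul_zero, add_zero]

end Pool.Agent.H96.Nod
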