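import Pool.Agent.H96.Nod.Chart

/-!
# The chart at a nondegenerate singular point: independence
-/

set_option autoImplicit false
set_option linter.unusedSectionVars false

namespace Pool.Agent.H96.Nod

open MvPolynomial Pool.Agent.H96.VL Pool.Agent.H96.Reg IsLocalRing

variable {ι : Type} [Fintype ι] [DecidableEq ι]

section Der

variable {k : Type} [Field k] {i₀ : ι} {q : Aff i₀ → Aff i₀ → MvPolynomial ι ℤ} {y θ : ι → k}
  {b a : k}

theorem pd_T_TX (l i : ι) : pderiv (Sum.inl (Sum.inr l) : Sg ι) (TX i) = if i = l then 1 else 0 := by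
  rw [TX, pderiv_X]
  by_cases h : i = l
  · subst h; rw [Pi.single_eq_same, if_pos rfl]
  · rw [if_neg h, Pi.single_eq_of_ne]
    intro h'
    exact h (Sum.inr_injective (Sum.inl_injective h'))

theorem pd_T_tX (l i : ι) : pderiv (Sum.inl (Sum.inr l) : Sg ι) (tX i) = 0 := by
  rw [tX, pderiv_X, Pi.single_eq_of_ne]
  intro h; exact absurd (Sum.inl_injective h) (by simp)

theorem pd_t_tX (l i : ι) : pderiv (Sum.inl (Sum.inl l) : Sg ι) (tX i) = if i = l then 1 else 0 := by
  rw [tX, pderiv_X]
  by_cases h : i = l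
  · subst h; rw [Pi.single_eq_same, if_pos rfl]
  · rw [if_neg h, Pi.single_eq_of_ne]
    intro h'
    exact h (Sum.inl_injective (Sum.inl_injective h'))

theorem pd_t_TX (l i : ι) : pderiv (Sum.inl (Sum.inl l) : Sg ι) (TX i) = 0 := by
  rw [TX, pderiv_X, Pi.single_eq_of_ne]
  intro h; exact absurd (Sum.inl_injective h) (by simp)

theorem pd_B_TX (l : Bool) (i : ι) : pderiv (Sum.inr l : Sg ι) (TX i) = 0 := by
  rw [TX, pderiv_X, Pi.single_eq_of_ne]
  simp

theorem pd_B_tX (l : Bool) (i : ι) : pderiv (Sum.inr l : Sg ι) (tX i) = 0 := by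
  rw [tX, pderiv_X, Pi.single_eq_of_ne]
  simp

theorem pd_bX (v : Sg ι) : pderiv v (bX : MvPolynomial (Sg ι) ℤ) =
    if v = Sum.inr false then 1 else 0 := by
  rw [bX, pderiv_X]
  by_cases h : v = Sum.inr false
  · subst h; rw [Pi.single_eq_same, if_pos rfl]
  · rw [if_neg h, Pi.single_eq_of_ne (Ne.symm h)]

theorem pd_aX (v : Sg ι) : pderiv v (aX : MvPolynomial (Sg ι) ℤ) =
    if v = Sum.inr true then 1 else 0 := by
  rw [aX, pderiv_X]
  by_cases h : v = Sum.inr true
  · subst h; rw [Pi.single_eq_same, if_pos rfl]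
  · rw [if_neg h, Pi.single_eq_of_ne (Ne.symm h)]

theorem pd_B_QQ (l : Bool) : pderiv (Sum.inr l : Sg ι) (QQ q) = 0 := by
  rw [QQ, map_sum]
  refine Finset.sum_eq_zero fun i _ => ?_
  rw [map_sum]
  refine Finset.sum_eq_zero fun j _ => ?_
  rw [Derivation.leibniz, Derivation.leibniz, pd_B_TX, pd_B_TX, vars_pderiv_inc (by simp)]
  simp

/-- The linear forms attached to the quadratic form. -/
noncomputable def Bf (q : Aff i₀ → Aff i₀ → MvPolynomial ι ℤ) (y θ : ι → k) (i : Aff i₀) : k :=
  ∑ j : Aff i₀, aeval y (q i j + q j i) * θ j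

theorem pd_T_QQ (l : Aff i₀) : aeval (zz y θ b a) (pderiv (Sum.inl (Sum.inr (l : ι)) : Sg ι) (QQ q)) =
    Bf q y θ l := by
  classical
  have h1 : ∀ i j : Aff i₀, aeval (zz y θ b a) (pderiv (Sum.inl (Sum.inr (l : ι)) : Sg ι)
      (inc (q i j) * (TX (i : ι) * TX (j : ι)))) =
      (if j = l then aeval y (q i j) * θ i else 0) + (if i = l then aeval y (q i j) * θ j else 0) := by
    intro i j
    rw [Derivation.leibniz, Derivation.leibniz, pd_T_TX, pd_T_TX, vars_pderiv_inc (by simp)]
    simp only [smul_eq_mul, mul_zero, add_zero, map_mul, map_add, aeval_inc, aeval_TX,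
      Subtype.val_inj]
    split_ifs <;> simp <;> ring
  rw [QQ, map_sum, map_sum]
  have h2 : ∀ i : Aff i₀, aeval (zz y θ b a) (pderiv (Sum.inl (Sum.inr (l : ι)) : Sg ι)
      (∑ j, inc (q i j) * (TX (i : ι) * TX (j : ι)))) =
      aeval y (q i l) * θ i + (if i = l then ∑ j : Aff i₀, aeval y (q i j) * θ j else 0) := by
    intro i
    rw [map_sum, map_sum, Finset.sum_congr rfl fun j _ => h1 i j, Finset.sum_add_distrib,
      Finset.sum_ite_eq' Finset.univ l, if_pos (Finset.mem_univ _)]
    congr 1
    by_cases h : i = l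
    · simp only [if_pos h]
    · simp only [if_neg h, Finset.sum_const_zero]
  rw [Finset.sum_congr rfl fun i _ => h2 i, Finset.sum_add_distrib,
    Finset.sum_ite_eq' Finset.univ l, if_pos (Finset.mem_univ _), ← Finset.sum_add_distrib, Bf]
  refine Finset.sum_congr rfl fun j _ => ?_
  rw [map_add]; ring

theorem pd_T0_QQ : pderiv (Sum.inl (Sum.inr i₀) : Sg ι) (QQ q) = 0 := by
  rw [QQ, map_sum]
  refine Finset.sum_eq_zero fun i _ => ?_
  rw [map_sum]
  refine Finset.sum_eq_zero fun j _ => ?_
  rw [Derivation.leibniz, Derivation.leibniz, pd_T_TX, pd_T_TX, vars_pderiv_inc (by simp),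
    if_neg i.2, if_neg j.2]
  simp

theorem sum_Bf : ∑ i : Aff i₀, Bf q y θ i * θ i =
    2 * ∑ i : Aff i₀, ∑ j : Aff i₀, aeval y (q i j) * (θ i * θ j) := by
  have h1 : ∑ i : Aff i₀, Bf q y θ i * θ i =
      ∑ i : Aff i₀, ∑ j : Aff i₀, aeval y (q i j) * (θ i * θ j) +
      ∑ i : Aff i₀, ∑ j : Aff i₀, aeval y (q j i) * (θ i * θ j) := by
    rw [← Finset.sum_add_distrib]
    refine Finset.sum_congr rfl fun i _ => ?_
    rw [Bf, Finset.sum_mul, ← Finset.sum_add_distrib]
    refine Finset.sum_congr rfl fun j _ => ?_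
    rw [map_add]; ring
  have h2 : ∑ i : Aff i₀, ∑ j : Aff i₀, aeval y (q j i) * (θ i * θ j) =
      ∑ i : Aff i₀, ∑ j : Aff i₀, aeval y (q i j) * (θ i * θ j) := by
    rw [Finset.sum_comm]
    exact Finset.sum_congr rfl fun i _ => Finset.sum_congr rfl fun j _ => by ring
  rw [h1, h2]; ring

end Der

section Indep

variable {k : Type} [Field k] {F : MvPolynomial ι ℤ} {i₀ : ι} {p : ℕ} {y θ : ι → k} {b : k}
  {i₁ : Aff i₀} {j e : ℕ} {s r w : MvPolynomial ι ℤ} {q : Aff i₀ → Aff i₀ → MvPolynomial ι ℤ}

/-- Independence of the relations at a point with `α = 0`. -/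
theorem indepAt_rel (h : Nodal F i₀ p y) (he : e ≤ 2) (hje : 1 ≤ 2 * j + e)
    (hM : IsMorse F i₀ p y (2 * j + e) s q r w) (hr : e < 2 → aeval y r ≠ 0)
    (hpb : (p : k) ^ j * b = 0)
    (hrel : ∀ c, aeval (zz y θ b 0) (rel F i₀ i₁ p j e q r c) = 0) :
    IndepAt (rel F i₀ i₁ p j e q r) (RingHom.ker
      (aeval (zz y θ b 0) : MvPolynomial (Sg ι) ℤ →ₐ[ℤ] k)) := by
  classical
  set Q0 : k := ∑ i : Aff i₀, ∑ j : Aff i₀, aeval y (q i j) * (θ i * θ j) with hQ0
  have hθ1 : θ (i₁ : ι) = 1 := by
    have h1 := hrel (.inr (.inl true))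
    rw [rel, map_sub, aeval_TX, map_one] at h1
    exact sub_eq_zero.mp h1
  have hsp : b ^ (2 - e) * Q0 + aeval y r * 0 ^ e = 0 := by
    have h1 := hrel (.inr (.inr true))
    rw [rel, map_add, map_mul, map_mul, map_pow, map_pow, aeval_bX, aeval_QQ, aeval_inc,
      aeval_aX] at h1
    exact h1
  -- the crucial consequence of nondegeneracy
  have hnd : (∀ i : Aff i₀, i ≠ i₁ → Bf q y θ i = 0) → 2 * Q0 = 0 → False := by
    intro h1 h2
    have h3 : Bf q y θ i₁ = 0 := by
      have h4 := sum_Bf (q := q) (y := y) (θ := θ)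
      rw [← hQ0, h2, Finset.sum_eq_single i₁ (fun i _ hi => by rw [h1 i hi, zero_mul])
        (fun h => absurd (Finset.mem_univ _) h), hθ1, mul_one] at h4
      exact h4
    have h5 : (fun i : Aff i₀ => θ i) = 0 := by
      apply hM.nondeg h hje
      intro i
      by_cases hi : i = i₁
      · rw [hi]; exact h3
      · exact h1 i hi
    have h6 := congrFun h5 i₁
    simp only [Pi.zero_apply] at h6
    rw [hθ1] at h6
    exact one_ne_zero h6
  have hpow : ∀ (v : Sg ι) (n : ℕ) (f : MvPolynomial (Sg ι) ℤ),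
      pderiv v (f ^ n) = (n : MvPolynomial (Sg ι) ℤ) * f ^ (n - 1) * pderiv v f := by
    intro v n f
    rw [Derivation.leibniz_pow, smul_eq_mul, nsmul_eq_mul, mul_assoc]
  -- the table of derivatives
  have dT_r1 : ∀ (l : ι) (i : ι), aeval (zz y θ b 0) (pderiv (Sum.inl (Sum.inr l) : Sg ι)
      (rel F i₀ i₁ p j e q r (.inl i))) = 0 := by
    intro l i
    rw [rel]
    by_cases hi : i = i₀
    · rw [if_pos hi, map_sub, pd_T_tX, pderiv_one, sub_zero, map_zero]
    · rw [if_neg hi, map_sub, vars_pderiv_inc (by simp), pderiv_natCast_mul, Derivation.leibniz,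
        pd_bX, if_neg (by simp), pd_T_TX]
      simp only [smul_eq_mul, mul_zero, add_zero, zero_sub, map_neg, map_mul, map_pow, map_natCast,
        aeval_bX]
      rw [← mul_assoc, hpb]
      simp
  have dT_r2 : ∀ (l : ι), aeval (zz y θ b 0) (pderiv (Sum.inl (Sum.inr l) : Sg ι)
      (rel F i₀ i₁ p j e q r (.inr (.inl false)))) = if i₀ = l then 1 else 0 := by
    intro l
    rw [rel, pd_T_TX]
    split_ifs <;> simp
  have dT_r2' : ∀ (l : ι), aeval (zz y θ b 0) (pderiv (Sum.inl (Sum.inr l) : Sg ι)
      (rel F i₀ i₁ p j e q r (.inr (.inl true)))) = if (i₁ : ι) = l then 1 else 0 := by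
    intro l
    rw [rel, map_sub, pd_T_TX, pderiv_one, sub_zero]
    split_ifs <;> simp
  have dsp : ∀ (v : Sg ι), (∀ i : ι, v ≠ Sum.inl (Sum.inl i)) → aeval (zz y θ b 0) (pderiv v
      (rel F i₀ i₁ p j e q r (.inr (.inr true)))) =
      b ^ (2 - e) * aeval (zz y θ b 0) (pderiv v (QQ q)) +
      Q0 * (((2 - e : ℕ) : k) * b ^ (2 - e - 1) * (if v = Sum.inr false then 1 else 0)) +
      aeval y r * ((e : k) * 0 ^ (e - 1) * (if v = Sum.inr true then 1 else 0)) := by
    intro v hv
    rw [rel, map_add, Derivation.leibniz, Derivation.leibniz, hpow, hpow, pd_bX, pd_aX,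
      vars_pderiv_inc hv]
    simp only [smul_eq_mul, mul_zero, add_zero, map_add, map_mul, map_pow, map_natCast, aeval_bX,
      aeval_aX, aeval_inc, aeval_QQ]
    rw [← hQ0]
    congr 2
    · congr 1
      split_ifs <;> simp
    · split_ifs <;> simp
  refine indepAt_of_linear _ _ hrel (.inr (.inr false)) ?_ ?_
  · intro A hA
    have hsum : ∀ v : Sg ι, ∑ i, A (.inl i) * aeval (zz y θ b 0) (pderiv v
        (rel F i₀ i₁ p j e q r (.inl i))) +
        (A (.inr (.inl true)) * aeval (zz y θ b 0) (pderiv v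
          (rel F i₀ i₁ p j e q r (.inr (.inl true)))) +
        A (.inr (.inl false)) * aeval (zz y θ b 0) (pderiv v
          (rel F i₀ i₁ p j e q r (.inr (.inl false)))) +
        (A (.inr (.inr true)) * aeval (zz y θ b 0) (pderiv v
          (rel F i₀ i₁ p j e q r (.inr (.inr true)))) +
        A (.inr (.inr false)) * aeval (zz y θ b 0) (pderiv v
          (rel F i₀ i₁ p j e q r (.inr (.inr false)))))) = 0 := by
      intro v
      have h1 := hA v
      rw [Fintype.sum_sum_type, Fintype.sum_sum_type, Fintype.sum_bool, Fintype.sum_bool] at h1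
      exact h1
    have dT_r3 : ∀ (l : ι), aeval (zz y θ b 0) (pderiv (Sum.inl (Sum.inr l) : Sg ι)
        (rel F i₀ i₁ p j e q r (.inr (.inr false)))) = 0 := by
      intro l
      rw [rel, map_sub, Derivation.leibniz, pd_bX, pd_aX, Derivation.map_natCast]
      simp
    -- `A (sp) = 0`
    have hT : ∀ l : ι, A (.inr (.inl true)) * (if (i₁ : ι) = l then 1 else 0) +
        A (.inr (.inl false)) * (if i₀ = l then 1 else 0) +
        A (.inr (.inr true)) * (b ^ (2 - e) *
          aeval (zz y θ b 0) (pderiv (Sum.inl (Sum.inr l) : Sg ι) (QQ q))) = 0 := by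
      intro l
      have h1 := hsum (Sum.inl (Sum.inr l))
      simp only [dT_r1, dT_r2, dT_r2', dT_r3, dsp (Sum.inl (Sum.inr l)) (by simp), mul_zero,
        Finset.sum_const_zero, zero_add, add_zero, reduceCtorEq, if_false] at h1
      exact h1
    have hb_B : A (.inr (.inr true)) ≠ 0 → b ^ (2 - e) ≠ 0 → ∀ i : Aff i₀, i ≠ i₁ →
        Bf q y θ i = 0 := by
      intro h1 h2 i hi
      have h3 := hT i
      rw [if_neg (fun h => hi (Subtype.ext h.symm)), if_neg (fun h => i.2 h.symm), mul_zero,
        mul_zero, zero_add, zero_add, pd_T_QQ] at h3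
      exact (mul_eq_zero.mp ((mul_eq_zero.mp h3).resolve_left h1)).resolve_left h2
    have hα : A (.inr (.inr true)) * (aeval y r * ((e : k) * 0 ^ (e - 1))) +
        A (.inr (.inr false)) * b = 0 := by
      have h1 := hsum (Sum.inr true)
      have h2 : ∀ i, aeval (zz y θ b 0) (pderiv (Sum.inr true : Sg ι)
          (rel F i₀ i₁ p j e q r (.inl i))) = 0 := by
        intro i
        rw [rel]
        by_cases hi : i = i₀
        · rw [if_pos hi, map_sub, pd_B_tX, pderiv_one, sub_zero, map_zero]
        · rw [if_neg hi, map_sub, vars_pderiv_inc (by simp), pderiv_natCast_mul,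
            Derivation.leibniz, pd_bX, if_neg (by simp), pd_B_TX]
          simp
      have h3 : aeval (zz y θ b 0) (pderiv (Sum.inr true : Sg ι)
          (rel F i₀ i₁ p j e q r (.inr (.inl false)))) = 0 := by
        rw [rel, pd_B_TX, map_zero]
      have h4 : aeval (zz y θ b 0) (pderiv (Sum.inr true : Sg ι)
          (rel F i₀ i₁ p j e q r (.inr (.inl true)))) = 0 := by
        rw [rel, map_sub, pd_B_TX, pderiv_one, sub_zero, map_zero]
      have h5 : aeval (zz y θ b 0) (pderiv (Sum.inr true : Sg ι)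
          (rel F i₀ i₁ p j e q r (.inr (.inr false)))) = b := by
        rw [rel, map_sub, Derivation.leibniz, pd_bX, pd_aX, Derivation.map_natCast]
        simp [aeval_bX]
      simp only [h2, h3, h4, h5, dsp (Sum.inr true) (by simp), pd_B_QQ, mul_zero, map_zero,
        Finset.sum_const_zero, zero_add, reduceCtorEq, if_true, mul_one,
        Sum.inr.injEq, if_false] at h1
      exact h1
    have hβ : ∑ i, A (.inl i) * (if i = i₀ then 0 else -((p : k) ^ j * θ i)) +
        (A (.inr (.inr true)) * (Q0 * (((2 - e : ℕ) : k) * b ^ (2 - e - 1)))) = 0 := by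
      have h1 := hsum (Sum.inr false)
      have h2 : ∀ i, aeval (zz y θ b 0) (pderiv (Sum.inr false : Sg ι)
          (rel F i₀ i₁ p j e q r (.inl i))) = if i = i₀ then 0 else -((p : k) ^ j * θ i) := by
        intro i
        rw [rel]
        by_cases hi : i = i₀
        · rw [if_pos hi, if_pos hi, map_sub, pd_B_tX, pderiv_one, sub_zero, map_zero]
        · rw [if_neg hi, if_neg hi, map_sub, vars_pderiv_inc (by simp), pderiv_natCast_mul,
            Derivation.leibniz, pd_bX, if_pos rfl, pd_B_TX]
          simp [aeval_TX]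
      have h3 : aeval (zz y θ b 0) (pderiv (Sum.inr false : Sg ι)
          (rel F i₀ i₁ p j e q r (.inr (.inl false)))) = 0 := by
        rw [rel, pd_B_TX, map_zero]
      have h4 : aeval (zz y θ b 0) (pderiv (Sum.inr false : Sg ι)
          (rel F i₀ i₁ p j e q r (.inr (.inl true)))) = 0 := by
        rw [rel, map_sub, pd_B_TX, pderiv_one, sub_zero, map_zero]
      have h5 : aeval (zz y θ b 0) (pderiv (Sum.inr false : Sg ι)
          (rel F i₀ i₁ p j e q r (.inr (.inr false)))) = 0 := by
        rw [rel, map_sub, Derivation.leibniz, pd_bX, pd_aX, Derivation.map_natCast]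
        simp [aeval_aX]
      simp only [h2, h3, h4, h5, dsp (Sum.inr false) (by simp), pd_B_QQ, mul_zero, map_zero,
        zero_add, reduceCtorEq, if_true, mul_one, add_zero,
        Sum.inr.injEq, if_false] at h1
      exact h1
    have hAsp : A (.inr (.inr true)) = 0 := by
      by_contra hne
      interval_cases e
      · -- `e = 0`
        have hr0 := hr (by norm_num)
        have h1 : b ^ 2 * Q0 ≠ 0 := by
          intro h2
          rw [Nat.sub_zero, h2, zero_add, pow_zero, mul_one] at hsp
          exact hr0 hsp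
        have hb : b ≠ 0 := by
          rintro rfl
          apply h1; ring
        have hj : 1 ≤ j := by omega
        have hpj : (p : k) ^ j = 0 := by
          rw [h.pk, zero_pow (by omega)]
        simp only [hpj, zero_mul, neg_zero, ite_self, mul_zero, Finset.sum_const_zero, zero_add]
          at hβ
        have h2 : 2 * Q0 = 0 := by
          have h3 := (mul_eq_zero.mp hβ).resolve_left hne
          have h4 : Q0 * (((2 - 0 : ℕ) : k) * b ^ (2 - 0 - 1)) = (2 * Q0) * b := by
            norm_num; ring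
          rw [h4] at h3
          exact (mul_eq_zero.mp h3).resolve_right hb
        exact hnd (hb_B hne (by simpa using pow_ne_zero 2 hb)) h2
      · -- `e = 1`
        have hr0 := hr (by norm_num)
        have hb : b ≠ 0 := by
          rintro rfl
          rw [mul_zero, add_zero] at hα
          have h3 := (mul_eq_zero.mp hα).resolve_left hne
          apply hr0
          simpa using h3
        have h1 : Q0 = 0 := by
          have h2 : b * Q0 = 0 := by simpa using hsp
          exact (mul_eq_zero.mp h2).resolve_left hb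
        exact hnd (hb_B hne (by simpa using hb)) (by rw [h1, mul_zero])
      · -- `e = 2`
        have h1 : Q0 = 0 := by simpa using hsp
        exact hnd (hb_B hne (by simp)) (by rw [h1, mul_zero])
    have hA2 : A (.inr (.inl false)) = 0 := by
      have h1 := hT i₀
      rw [if_neg i₁.2, if_pos rfl, pd_T0_QQ, map_zero, mul_zero, mul_zero, mul_zero,
        mul_one, zero_add, add_zero] at h1
      exact h1
    have hA2' : A (.inr (.inl true)) = 0 := by
      have h1 := hT i₁
      rw [if_pos rfl, if_neg (Ne.symm i₁.2), hAsp, zero_mul, mul_zero, add_zero, add_zero,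
        mul_one] at h1
      exact h1
    -- derivatives with respect to the coordinates
    have dt_r1 : ∀ (l i : ι), aeval (zz y θ b 0) (pderiv (Sum.inl (Sum.inl l) : Sg ι)
        (rel F i₀ i₁ p j e q r (.inl i))) =
        if i = i₀ then (if i₀ = l then 1 else 0) else aeval y (pderiv l (pderiv i F)) := by
      intro l i
      rw [rel]
      by_cases hi : i = i₀
      · rw [if_pos hi, if_pos hi, map_sub, pd_t_tX, pderiv_one, sub_zero]
        split_ifs <;> simp
      · rw [if_neg hi, if_neg hi, map_sub, pderiv_inc, pderiv_natCast_mul, Derivation.leibniz,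
          pd_bX, if_neg (by simp), pd_t_TX, map_sub, aeval_inc]
        simp
    have dt_r3 : ∀ (l : ι), aeval (zz y θ b 0) (pderiv (Sum.inl (Sum.inl l) : Sg ι)
        (rel F i₀ i₁ p j e q r (.inr (.inr false)))) = 0 := by
      intro l
      rw [rel, map_sub, Derivation.leibniz, pd_bX, pd_aX, Derivation.map_natCast]
      simp
    have ht : ∀ l : ι, ∑ i, A (.inl i) *
        (if i = i₀ then (if i₀ = l then 1 else 0) else aeval y (pderiv l (pderiv i F))) = 0 := by
      intro l
      have h1 := hsum (Sum.inl (Sum.inl l))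
      simp only [dt_r1, dt_r3, hAsp, hA2, hA2', zero_mul, mul_zero, add_zero] at h1
      exact h1
    have hsplit : ∀ f : ι → k, ∑ i, f i = f i₀ + ∑ i : Aff i₀, f i := by
      intro f
      rw [← Finset.add_sum_erase _ _ (Finset.mem_univ i₀)]
      congr 1
      have h1 : (Finset.univ.erase i₀) = Finset.univ.filter (fun i => i ≠ i₀) := by
        ext i; simp
      rw [h1, Finset.sum_subtype_eq_sum_filter (p := fun i => i ≠ i₀) (s := Finset.univ) f |>.symm]
      rw [Finset.subtype_univ]
    have hA1 : (fun i : Aff i₀ => A (.inl (i : ι))) = 0 := by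
      apply h.eq_zero
      intro l
      have h1 := ht l
      rw [hsplit, if_pos rfl, if_neg (Ne.symm l.2), mul_zero, zero_add] at h1
      rw [← h1]
      refine Finset.sum_congr rfl fun i _ => ?_
      rw [if_neg i.2, Hm, Matrix.of_apply]
    have hA0 : A (.inl i₀) = 0 := by
      have h1 := ht i₀
      rw [hsplit, if_pos rfl, if_pos rfl, mul_one] at h1
      have h2 : ∀ i : Aff i₀, A (.inl (i : ι)) = 0 := fun i => congrFun hA1 i
      simp only [h2, zero_mul, Finset.sum_const_zero, add_zero] at h1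
      exact h1
    rintro (i | ⟨_ | _⟩ | ⟨_ | _⟩) hc
    · by_cases hi : i = i₀
      · rw [hi]; exact hA0
      · exact congrFun hA1 ⟨i, hi⟩
    · exact hA2
    · exact hA2'
    · exact absurd rfl hc
    · exact hAsp
  · by_cases hb : b = 0
    · right
      refine ⟨p, -1, aX * bX, h.hp, h.pk, ?_, ?_, ?_⟩
      · rw [map_neg, map_one]; exact neg_ne_zero.mpr one_ne_zero
      · rw [rel]; ring
      · rw [pow_two]
        apply Ideal.mul_mem_mul
        · show aeval (zz y θ b 0) aX = 0
          rw [aeval_aX]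
        · show aeval (zz y θ b 0) bX = 0
          rw [aeval_bX, hb]
    · left
      refine ⟨Sum.inr true, ?_⟩
      rw [rel, map_sub, Derivation.leibniz, pd_bX, pd_aX, Derivation.map_natCast]
      simpa [aeval_bX] using hb

end Indep

end Pool.Agent.H96.Nod
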