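import Pool.Agent.H96.Nod.Sets

/-!
# The condition along every valuation
-/

set_option autoImplicit false
set_option linter.unusedSectionVars false

namespace Pool.Agent.H96.Nod

open MvPolynomial Pool.Agent.H96.VL Pool.Agent.H96.Reg IsLocalRing
open scoped Pointwise

variable {ι : Type} [Fintype ι] [DecidableEq ι] {K : Type} [Field K] [CharZero K] [DecidableEq K]

variable {V : ValuationSubring K} {F : MvPolynomial ι ℤ} {x : ι → K} {d : ℕ} {i₀ : ι}
  {c : K} {t : ι → K}

theorem closure_t (h : Ctr V F x d i₀ c t) {i₁ : ι} (hx : x i₁ = 1)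
    (hgen : Subfield.closure (Set.range x) = ⊤) {S : Set K} (hS : ∀ i, t i ∈ S) :
    Subfield.closure S = ⊤ := by
  rw [eq_top_iff, ← hgen, Subfield.closure_le]
  rintro _ ⟨i, rfl⟩
  have h1 : x i = t i / t i₁ := by
    have h2 : c * t i₁ = 1 := by rw [← hx, h.xt]
    have h3 : t i₁ ≠ 0 := right_ne_zero_of_mul (by rw [h2]; exact one_ne_zero)
    rw [h.xt]
    show c * t i = _
    rw [eq_div_iff h3]
    linear_combination (t i) * h2
  rw [h1]
  exact Subfield.div_mem _ (Subfield.subset_closure (hS i)) (Subfield.subset_closure (hS i₁))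

/-- The smooth case. -/
theorem good_smooth (h : Ctr V F x d i₀ c t) {i₁ : ι} (hx : x i₁ = 1)
    (hgen : Subfield.closure (Set.range x) = ⊤)
    (htr : (Nat.card ι : Cardinal.{0}) ≤ Algebra.trdeg ℤ K + 2) {N M : ℕ} (hN : (N : K) ≠ 0)
    {i₂ : Aff i₀} (h2 : V.valuation (aeval t (pderiv (i₂ : ι) F)) = 1) : Good V (Tot F x N d M) := by
  have hg0 : aeval t (pderiv (i₂ : ι) F) ≠ 0 := by
    intro h0
    rw [h0, map_zero] at h2
    exact zero_ne_one h2
  let f : Bool → MvPolynomial ι ℤ := fun b => if b then F else X i₀ - 1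
  refine good_of_relations V _ t h.vt (closure_t h hx hgen fun i => ⟨i, rfl⟩) f ?_ ?_ ?_ ?_ ?_
  · rintro (_ | _)
    · show aeval t ((X i₀ : MvPolynomial ι ℤ) - 1) = 0
      rw [map_sub, aeval_X, map_one, h.t0, sub_self]
    · exact h.Ft
  · rw [Fintype.card_bool]
    exact_mod_cast htr
  · intro hf
    refine indepAt_of_linear _ _ hf false ?_ (Or.inl ⟨i₀, ?_⟩)
    · intro A hA b hb
      have h3 := hA i₂
      rw [Fintype.sum_bool] at h3
      have h4 : pderiv (i₂ : ι) (f false) = 0 := pderiv_sub_one i₂.2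
      rw [h4, map_zero, mul_zero, add_zero] at h3
      have h5 : aeval (fun s => resv V (t s)) (pderiv (i₂ : ι) F) ≠ 0 := by
        rw [← (resv_aeval t h.vt _).2, resv_ne_zero_iff (h.vg _)]
        exact h2
      have h6 := (mul_eq_zero.mp h3).resolve_right h5
      cases b
      · exact absurd rfl hb
      · exact h6
    · show aeval _ (pderiv i₀ ((X i₀ : MvPolynomial ι ℤ) - 1)) ≠ 0
      rw [map_sub, pderiv_X, Pi.single_eq_same, pderiv_one, sub_zero, map_one]
      exact one_ne_zero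
  · intro R hR hz
    rw [Tot, prin_mul_iff, prin_prod_iff]
    refine ⟨⟨_, h.gen_XS hz⟩, fun l _ => ⟨_, h.gen_JS_g hN hz hg0 (fun i => ?_) ?_⟩⟩
    · exact hR.div_mem (aeval_mem hz _) (aeval_mem hz _) h2
    · exact hR.div_mem (R.pow_mem (natCast_mem R N) l) (aeval_mem hz _) h2
  · intro R' hR' hP
    rw [Tot, prin_mul_iff] at hP
    exact h.t_mem_of_prin hR' hP.1

theorem exists_prime_of_int {V : ValuationSubring K} {D : ℤ} (hD : D ≠ 0)
    (hv : V.valuation (D : K) < 1) : ∃ p : ℕ, p.Prime ∧ (p : ℤ) ∣ D ∧ V.valuation (p : K) < 1 := by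
  have h1 : ∀ n : ℕ, n ≠ 0 → V.valuation (n : K) < 1 →
      ∃ p : ℕ, p.Prime ∧ p ∣ n ∧ V.valuation (p : K) < 1 := by
    intro n
    induction n using Nat.recOnMul with
    | zero => intro h; exact absurd rfl h
    | one => intro _ h; simp at h
    | prime p hp => intro _ h; exact ⟨p, hp, dvd_rfl, h⟩
    | mul a b ha hb =>
      intro hab h
      have ha0 : a ≠ 0 := left_ne_zero_of_mul hab
      have hb0 : b ≠ 0 := right_ne_zero_of_mul hab
      by_cases h2 : V.valuation (a : K) < 1
      · obtain ⟨p, hp, hpa, hv⟩ := ha ha0 h2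
        exact ⟨p, hp, hpa.mul_right b, hv⟩
      · have h3 : V.valuation (a : K) = 1 :=
          le_antisymm (by exact_mod_cast val_intCast_le V (a : ℤ)) (not_lt.mp h2)
        rw [Nat.cast_mul, map_mul, h3, one_mul] at h
        obtain ⟨p, hp, hpa, hv⟩ := hb hb0 h
        exact ⟨p, hp, hpa.mul_left a, hv⟩
  have h2 : V.valuation ((D.natAbs : ℕ) : K) < 1 := by
    rcases Int.natAbs_eq D with h | h
    · rw [h] at hv; simpa using hv
    · rw [h] at hv
      rw [Int.cast_neg, Valuation.map_neg] at hv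
      simpa using hv
  obtain ⟨p, hp, hpD, hv⟩ := h1 _ (Int.natAbs_ne_zero.mpr hD) h2
  exact ⟨p, hp, Int.natCast_dvd.mpr hpD, hv⟩

/-- `N` is, up to a unit, the residue characteristic. -/
theorem exists_cofactor {V : ValuationSubring K} {p N : ℕ} (hp : p.Prime)
    (hv : V.valuation (p : K) < 1) (hN : Squarefree N) (hpN : p ∣ N) :
    ∃ N' : ℕ, N = p * N' ∧ V.valuation (N' : K) = 1 := by
  obtain ⟨N', rfl⟩ := hpN
  refine ⟨N', rfl, ?_⟩
  have hcop : Nat.Coprime p N' := Nat.coprime_of_squarefree_mul hN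
  refine le_antisymm (by exact_mod_cast val_intCast_le V (N' : ℤ)) (not_lt.mp fun h => ?_)
  have h1 : IsCoprime (p : ℤ) (N' : ℤ) := Nat.isCoprime_iff_coprime.mpr hcop
  obtain ⟨a, b, hab⟩ := h1
  have h2 : (a : K) * p + b * N' = 1 := by exact_mod_cast congrArg (fun z : ℤ => (z : K)) hab
  have h3 : V.valuation ((a : K) * p + b * N') < 1 := by
    apply V.valuation.map_add_lt
    · rw [map_mul]
      exact (mul_le_mul_left (val_intCast_le V a) _).trans_lt (by simpa using hv)
    · rw [map_mul]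
      exact (mul_le_mul_left (val_intCast_le V b) _).trans_lt (by simpa using h)
  rw [h2, map_one] at h3
  exact lt_irrefl _ h3

end Pool.Agent.H96.Nod
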