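import Pool.Agent.H96.Nod.Good

/-!
# The condition along valuations centred at nondegenerate singular points
-/

set_option autoImplicit false
set_option linter.unusedSectionVars false

namespace Pool.Agent.H96.Nod

open MvPolynomial Pool.Agent.H96.VL Pool.Agent.H96.Reg IsLocalRing
open scoped Pointwise

variable {ι : Type} [Fintype ι] [DecidableEq ι] {K : Type} [Field K] [CharZero K] [DecidableEq K]

variable {V : ValuationSubring K} {F : MvPolynomial ι ℤ} {x : ι → K} {d : ℕ} {i₀ : ι}
  {c : K} {t : ι → K}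

theorem val_natCast_le (V : ValuationSubring K) (n : ℕ) : V.valuation (n : K) ≤ 1 := by
  exact_mod_cast val_intCast_le V (n : ℤ)

/-- Evaluation in a field. -/
noncomputable def evk {k : Type} [Field k] (y : ι → k) (f : MvPolynomial ι ℤ) : k := aeval y f

/-- The equations. -/
theorem rel_zero {p j e : ℕ} (hp : (p : K) ≠ 0) (t0 : t i₀ = 1) (Ft : aeval t F = 0)
    {i₁ : Aff i₀} {q : Aff i₀ → Aff i₀ → MvPolynomial ι ℤ} {s r w : MvPolynomial ι ℤ}
    (hg1 : aeval t (pderiv (i₁ : ι) F) ≠ 0) (he : e ≤ 2)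
    (hM : s * F = ∑ i, ∑ j, q i j * (pderiv (i : ι) F * pderiv (j : ι) F) +
      (p : MvPolynomial ι ℤ) ^ (2 * j + e) * r + (X i₀ - 1) * w) (κ : Kp ι) :
    aeval (zz t (fun i => if i = i₀ then 0 else
      aeval t (pderiv i F) / aeval t (pderiv (i₁ : ι) F))
      (aeval t (pderiv (i₁ : ι) F) / (p : K) ^ j) ((p : K) ^ (j + 1) / aeval t (pderiv (i₁ : ι) F)))
      (rel F i₀ i₁ p j e q r κ) = 0 := by
  set g1 := aeval t (pderiv (i₁ : ι) F) with hg1'
  set β := g1 / (p : K) ^ j with hβ
  set α := (p : K) ^ (j + 1) / g1 with hα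
  have hpj : (p : K) ^ j ≠ 0 := pow_ne_zero _ hp
  have hβ0 : β ≠ 0 := div_ne_zero hg1 hpj
  have hpβ : (p : K) ^ j * β = g1 := by rw [hβ]; field_simp
  have hαβ : α * β = p := by rw [hα, hβ]; field_simp; ring
  rcases κ with i | ⟨_ | _⟩ | ⟨_ | _⟩
  · rw [rel]
    by_cases hi : i = i₀
    · rw [if_pos hi, map_sub, aeval_tX, map_one, t0, sub_self]
    · rw [if_neg hi, map_sub, map_mul, map_mul, map_pow, map_natCast, aeval_inc, aeval_bX,
        aeval_TX, if_neg hi, ← mul_assoc, hpβ]
      field_simp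
      ring
  · rw [rel, aeval_TX, if_pos rfl]
  · rw [rel, map_sub, aeval_TX, if_neg i₁.2, map_one, div_self hg1, sub_self]
  · rw [rel, map_sub, map_mul, aeval_aX, aeval_bX, map_natCast, hαβ, sub_self]
  · rw [rel, map_add, map_mul, map_mul, map_pow, map_pow, aeval_bX, aeval_aX, aeval_QQ, aeval_inc]
    have h1 := congrArg (aeval t) hM
    rw [map_mul, Ft, mul_zero, map_add, map_add, map_mul, map_mul, map_sub, aeval_X, map_one, t0,
      sub_self, zero_mul, add_zero, map_pow, map_natCast, map_sum] at h1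
    set Q := ∑ i : Aff i₀, ∑ j : Aff i₀, aeval t (q i j) *
      ((if (i : ι) = i₀ then 0 else aeval t (pderiv (i : ι) F) / g1) *
      (if (j : ι) = i₀ then 0 else aeval t (pderiv (j : ι) F) / g1)) with hQ
    have h2 : ∑ i : Aff i₀, aeval t (∑ j : Aff i₀, q i j * (pderiv (i : ι) F * pderiv (j : ι) F)) =
        g1 ^ 2 * Q := by
      rw [hQ, Finset.mul_sum]
      refine Finset.sum_congr rfl fun i _ => ?_
      rw [map_sum, Finset.mul_sum]
      refine Finset.sum_congr rfl fun j _ => ?_
      rw [if_neg i.2, if_neg j.2, map_mul, map_mul]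
      field_simp
    rw [h2] at h1
    have h3 : (p : K) ^ (2 * j) * (β ^ e * (β ^ (2 - e) * Q + aeval t r * α ^ e)) = 0 := by
      have h4 : β ^ e * β ^ (2 - e) = β ^ 2 := by rw [← pow_add]; congr 1; omega
      have h5 : β ^ e * α ^ e = (p : K) ^ e := by rw [← mul_pow, mul_comm β, hαβ]
      calc (p : K) ^ (2 * j) * (β ^ e * (β ^ (2 - e) * Q + aeval t r * α ^ e))
          = (p : K) ^ (2 * j) * ((β ^ e * β ^ (2 - e)) * Q + aeval t r * (β ^ e * α ^ e)) := by ring
        _ = ((p : K) ^ j * β) ^ 2 * Q + (p : K) ^ (2 * j) * (p : K) ^ e * aeval t r := by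
            rw [h4, h5]; ring
        _ = 0 := by rw [hpβ, ← pow_add]; exact h1.symm
    have h6 := (mul_eq_zero.mp h3).resolve_left (pow_ne_zero _ hp)
    exact (mul_eq_zero.mp h6).resolve_left (pow_ne_zero _ hβ0)

theorem good_nodal (h : Ctr V F x d i₀ c t) {i₃ : ι} (hx : x i₃ = 1)
    (hgen : Subfield.closure (Set.range x) = ⊤)
    (htr : (Nat.card ι : Cardinal.{0}) ≤ Algebra.trdeg ℤ K + 2) {p N N' M : ℕ}
    (hp : p.Prime) (hvp : V.valuation (p : K) < 1) (hNN : N = p * N')
    (hvN' : V.valuation (N' : K) = 1)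
    (hno : ∀ i, i ≠ i₀ → V.valuation (aeval t (pderiv i F)) < 1)
    {i₁ : Aff i₀} (hg1 : aeval t (pderiv (i₁ : ι) F) ≠ 0)
    (hmax : ∀ i, i ≠ i₀ →
      V.valuation (aeval t (pderiv i F)) ≤ V.valuation (aeval t (pderiv (i₁ : ι) F)))
    (hM : V.valuation (p : K) ^ M < V.valuation (aeval t (pderiv (i₁ : ι) F)))
    (hdet : (Matrix.of fun (j l : Aff i₀) => aeval (fun i => resv V (t i))
      (pderiv (j : ι) (pderiv (l : ι) F))).det ≠ 0) : Good V (Tot F x N d (M + 1)) := by
  classical
  set g : ι → K := fun i => aeval t (pderiv i F) with hg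
  set g1 : K := g i₁ with hg1'
  have hpK : (p : K) ≠ 0 := by exact_mod_cast hp.ne_zero
  have hvp0 : V.valuation (p : K) ≠ 0 := by rw [Ne, Valuation.zero_iff]; exact hpK
  have hvpp : 0 < V.valuation (p : K) := zero_lt_iff.mpr hvp0
  have hN'K : (N' : K) ≠ 0 := by
    intro h0
    rw [h0, map_zero] at hvN'
    exact zero_ne_one hvN'
  have hNK : (N : K) ≠ 0 := by rw [hNN, Nat.cast_mul]; exact mul_ne_zero hpK hN'K
  have hvN : V.valuation (N : K) = V.valuation (p : K) := by
    rw [hNN, Nat.cast_mul, map_mul, hvN', mul_one]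
  have hv1 : V.valuation g1 < 1 := hno _ i₁.2
  have hv10 : 0 < V.valuation g1 := by rw [Valuation.pos_iff]; exact hg1
  -- the level
  obtain ⟨j, hj1, hj2, hjM⟩ : ∃ j, V.valuation g1 ≤ V.valuation (p : K) ^ j ∧
      V.valuation (p : K) ^ (j + 1) < V.valuation g1 ∧ j + 1 ≤ M := by
    have hex : ∃ n, V.valuation (p : K) ^ n < V.valuation g1 := ⟨M, hM⟩
    have h1 := Nat.find_spec hex
    have h2 : Nat.find hex ≠ 0 := by
      intro h0
      rw [h0, pow_zero] at h1
      exact lt_asymm h1 hv1
    obtain ⟨j, hj⟩ := Nat.exists_eq_succ_of_ne_zero h2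
    refine ⟨j, ?_, ?_, ?_⟩
    · by_contra hcon
      rw [not_le] at hcon
      have := Nat.find_le (n := j) (h := hex) hcon
      omega
    · rw [hj] at h1; exact h1
    · have := Nat.find_le (n := M) (h := hex) hM
      omega
  -- the residue point
  set y : ι → ResidueField V := fun i => resv V (t i) with hy
  have hay : ∀ f : MvPolynomial ι ℤ, evk y f = resv V (aeval t f) := fun f =>
    (resv_aeval t h.vt f).2.symm
  have hnod : Nodal F i₀ p y := by
    refine ⟨hp, ?_, ?_, ?_, ?_, hdet⟩
    · have h1 : resv V (p : K) = 0 := (resv_eq_zero_iff hvp.le).mpr hvp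
      have h2 := resv_intCast V (p : ℤ)
      rw [Int.cast_natCast, Int.cast_natCast, h1] at h2
      exact h2.symm
    · show resv V (t i₀) = 1
      rw [h.t0]
      have := resv_intCast V 1
      rw [Int.cast_one, Int.cast_one] at this
      exact this
    · show evk y F = 0
      rw [hay, h.Ft]
      exact (resv_eq_zero_iff (by simp)).mpr (by simp)
    · intro i hi
      show evk y (pderiv i F) = 0
      rw [hay]
      exact (resv_eq_zero_iff (h.vg _)).mpr (hno i hi)
  obtain ⟨m, s, q, r, w, hm1, hm2, hMo, hr⟩ := hnod.exists_morse_max (2 * j + 1)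
  -- `m` is at least `2 j`
  have hvgi : ∀ i : Aff i₀, V.valuation (g i) ≤ V.valuation g1 := fun i => hmax i i.2
  have hm3 : 2 * j ≤ m := by
    by_contra hlt
    have hr0 : evk y r ≠ 0 := hr (by omega)
    rw [hay, resv_ne_zero_iff (h.vg _)] at hr0
    have h1 := congrArg (aeval t) hMo.eq
    rw [map_mul, h.Ft, mul_zero, map_add, map_add, map_mul, map_mul, map_sub, aeval_X, map_one,
      h.t0, sub_self, zero_mul, add_zero, map_pow, map_natCast, map_sum] at h1
    have h2 : V.valuation (∑ i : Aff i₀, aeval t (∑ j : Aff i₀, q i j *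
        (pderiv (i : ι) F * pderiv (j : ι) F))) ≤ V.valuation (p : K) ^ (2 * j) := by
      have h3 : V.valuation g1 * V.valuation g1 ≤ V.valuation (p : K) ^ (2 * j) := by
        rw [two_mul, pow_add]
        exact mul_le_mul' hj1 hj1
      refine Valuation.map_sum_le _ fun i _ => ?_
      rw [map_sum]
      refine Valuation.map_sum_le _ fun l _ => ?_
      rw [map_mul, map_mul, map_mul, map_mul]
      calc V.valuation (aeval t (q i l)) * (V.valuation (g i) * V.valuation (g l))
          ≤ 1 * (V.valuation g1 * V.valuation g1) :=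
            mul_le_mul' (h.vg _) (mul_le_mul' (hvgi i) (hvgi l))
        _ ≤ _ := by rw [one_mul]; exact h3
    have h4 : V.valuation ((p : K) ^ m * aeval t r) ≤ V.valuation (p : K) ^ (2 * j) := by
      have h5 : (p : K) ^ m * aeval t r = -∑ i : Aff i₀, aeval t (∑ j : Aff i₀, q i j *
        (pderiv (i : ι) F * pderiv (j : ι) F)) := by linear_combination -h1
      rw [h5, Valuation.map_neg]
      exact h2
    rw [map_mul, hr0, mul_one, map_pow] at h4
    have h5 : V.valuation (p : K) ^ (2 * j) < V.valuation (p : K) ^ m :=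
      pow_lt_pow_right_of_lt_one₀ hvpp hvp (by omega)
    exact absurd h4 (not_le.mpr h5)
  obtain ⟨e, rfl⟩ : ∃ e, m = 2 * j + e := ⟨m - 2 * j, by omega⟩
  have he : e ≤ 2 := by omega
  have hr' : e < 2 → aeval y r ≠ 0 := fun h => hr (by omega)
  -- the generators
  set T : ι → K := fun i => if i = i₀ then 0 else g i / g1 with hT
  set β : K := g1 / (p : K) ^ j with hβ
  set α : K := (p : K) ^ (j + 1) / g1 with hα
  have hvT : ∀ i, V.valuation (T i) ≤ 1 := by
    intro i
    by_cases hi : i = i₀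
    · rw [hT]; simp only [if_pos hi, map_zero]; exact zero_le_one
    · rw [hT]; simp only [if_neg hi, map_div₀]
      exact (div_le_one₀ hv10).mpr (hmax i hi)
  have hvβ : V.valuation β ≤ 1 := by
    rw [hβ, map_div₀, map_pow]
    exact (div_le_one₀ (pow_pos hvpp _)).mpr hj1
  have hvα : V.valuation α < 1 := by
    rw [hα, map_div₀, map_pow]
    exact (div_lt_one₀ hv10).mpr hj2
  have hz : ∀ s, V.valuation (zz t T β α s) ≤ 1 := by
    rintro ((i | i) | (_ | _))
    · exact h.vt i
    · exact hvT i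
    · exact hvβ
    · exact hvα.le
  have hres : (fun s => resv V (zz t T β α s)) = zz y (fun i => resv V (T i)) (resv V β) 0 := by
    funext s
    rcases s with (i | i) | (_ | _)
    · rfl
    · rfl
    · rfl
    · exact (resv_eq_zero_iff hvα.le).mpr hvα
  have hpb : (p : ResidueField V) ^ j * resv V β = 0 := by
    have h1 : resv V ((p : K) ^ j * β) = (p : ResidueField V) ^ j * resv V β := by
      rw [resv_mul (by rw [map_pow]; exact pow_le_one' (val_natCast_le V p) j) hvβ]
      congr 1
      have h2 := resv_intCast V ((p : ℤ) ^ j)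
      push_cast at h2
      exact h2
    rw [← h1]
    have h2 : (p : K) ^ j * β = g1 := by
      rw [hβ]
      have := pow_ne_zero j hpK
      field_simp
    rw [h2]
    exact (resv_eq_zero_iff hv1.le).mpr hv1
  have hg1R : ∀ R : Subring K, (∀ i, t i ∈ R) → ∀ i, g i ∈ R := fun R ht i => aeval_mem ht _
  refine good_of_relations V _ (zz t T β α) hz
    (closure_t h hx hgen fun i => ⟨Sum.inl (Sum.inl i), rfl⟩) (rel F i₀ i₁ p j e q r)
    (rel_zero hpK h.t0 h.Ft hg1 he hMo.eq) ?_ ?_ ?_ ?_
  · have h1 : Nat.card (Sg ι) = 2 * Nat.card ι + 2 := by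
      rw [Nat.card_sum, Nat.card_sum, Nat.card_eq_fintype_card (α := Bool), Fintype.card_bool]
      ring
    have h2 : Fintype.card (Kp ι) = Nat.card ι + 4 := by
      rw [Fintype.card_sum, Fintype.card_sum, Fintype.card_bool, Nat.card_eq_fintype_card]
    rw [h1, h2]
    push_cast
    calc (2 : Cardinal.{0}) * Nat.card ι + 2 = Nat.card ι + (Nat.card ι + 2) := by ring
      _ ≤ (Algebra.trdeg ℤ K + 2) + (Nat.card ι + 2) := by gcongr
      _ = Algebra.trdeg ℤ K + (Nat.card ι + 4) := by ring
  · intro hrel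
    rw [hres] at hrel ⊢
    exact indepAt_rel hnod he hm1 hMo hr' hpb hrel
  · -- principality over rings containing the generators
    intro R hR hzR
    have htR : ∀ i, t i ∈ R := fun i => hzR (Sum.inl (Sum.inl i))
    have hTR : ∀ i, T i ∈ R := fun i => hzR (Sum.inl (Sum.inr i))
    have hβR : β ∈ R := hzR (Sum.inr false)
    have hαR : α ∈ R := hzR (Sum.inr true)
    have hinv : ((N' : K))⁻¹ ∈ R := hR.inv _ (natCast_mem R _) hvN'
    have hgg : ∀ i, g i / g1 ∈ R := by
      intro i
      by_cases hi : i = i₀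
      · rw [hi, hg]
        show aeval t (pderiv i₀ F) / g1 ∈ R
        rw [h.euler, neg_div, Finset.sum_div]
        refine R.neg_mem (R.sum_mem fun l _ => ?_)
        have h1 := R.mul_mem (htR l) (hTR l)
        have h2 : t l * T l = t l * aeval t (pderiv (l : ι) F) / g1 := by
          rw [hT]; simp only [if_neg l.2, hg]
          ring
        rw [← h2]; exact h1
      · have h1 := hTR i
        rw [hT] at h1
        simp only [if_neg hi] at h1
        exact h1
    rw [Tot, prin_mul_iff, prin_prod_iff]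
    refine ⟨⟨_, h.gen_XS htR⟩, fun l _ => ?_⟩
    by_cases hl : l ≤ j
    · refine ⟨_, h.gen_JS_N hNK htR (fun i => ?_)⟩
      have h1 : g i / (N : K) ^ l = (g i / g1) * β * (p : K) ^ (j - l) * ((N' : K)⁻¹) ^ l := by
        have h2 : (p : K) ^ j = (p : K) ^ (j - l) * (p : K) ^ l := by
          rw [← pow_add]; congr 1; omega
        have h3 : (p : K) ^ l ≠ 0 := pow_ne_zero _ hpK
        have h4 : (p : K) ^ (j - l) ≠ 0 := pow_ne_zero _ hpK
        have h5 : (N' : K) ^ l ≠ 0 := pow_ne_zero _ hN'K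
        have hg1'' : g1 ≠ 0 := hg1
        rw [hβ, h2, hNN, Nat.cast_mul, mul_pow, inv_pow]
        field_simp
      show g i / (N : K) ^ l ∈ R
      rw [h1]
      exact R.mul_mem (R.mul_mem (R.mul_mem (hgg i) hβR) (R.pow_mem (natCast_mem R p) _))
        (R.pow_mem hinv _)
    · refine ⟨_, h.gen_JS_g hNK htR hg1 hgg ?_⟩
      have h1 : (N : K) ^ l / g1 = α * (p : K) ^ (l - (j + 1)) * (N' : K) ^ l := by
        have h2 : (p : K) ^ l = (p : K) ^ (l - (j + 1)) * (p : K) ^ (j + 1) := by
          rw [← pow_add]; congr 1; omega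
        rw [hα, hNN, Nat.cast_mul, mul_pow, h2]
        ring
      show (N : K) ^ l / g1 ∈ R
      rw [h1]
      exact R.mul_mem (R.mul_mem hαR (R.pow_mem (natCast_mem R p) _))
        (R.pow_mem (natCast_mem R N') _)
  · -- minimality
    intro R hR hP
    rw [Tot, prin_mul_iff, prin_prod_iff] at hP
    obtain ⟨hX, hJ⟩ := hP
    have htR : ∀ i, t i ∈ R := h.t_mem_of_prin hR hX
    have hinv : ((N' : K))⁻¹ ∈ R := hR.inv _ (natCast_mem R _) hvN'
    have hvgall : ∀ i, V.valuation (g i) ≤ V.valuation g1 := by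
      intro i
      by_cases hi : i = i₀
      · rw [hi, hg]
        show V.valuation (aeval t (pderiv i₀ F)) ≤ _
        rw [h.euler, Valuation.map_neg]
        refine Valuation.map_sum_le _ fun l _ => ?_
        rw [map_mul]
        calc V.valuation (t l) * V.valuation (aeval t (pderiv (l : ι) F)) ≤
            1 * V.valuation g1 := mul_le_mul' (h.vt l) (hmax l l.2)
          _ = _ := one_mul _
      · exact hmax i hi
    have h1 := h.of_prin_JS_g hR hNK (l := j + 1) hg1 hvgall (by
      rw [map_pow, hvN]; exact hj2.le) (hJ (j + 1) (Finset.mem_range.mpr (by omega)))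
    have hαR : α ∈ R := by
      have h2 : α = (N : K) ^ (j + 1) / g1 * ((N' : K)⁻¹) ^ (j + 1) := by
        have h5 : (N' : K) ^ (j + 1) ≠ 0 := pow_ne_zero _ hN'K
        have hg1'' : g1 ≠ 0 := hg1
        rw [hα, hNN, Nat.cast_mul, mul_pow, inv_pow]
        field_simp
      rw [h2]
      exact R.mul_mem h1.2 (R.pow_mem hinv _)
    have hβR : β ∈ R := by
      have h2 := h.of_prin_JS_N hR hNK (l := j) (fun i => by
        rw [map_pow, hvN]; exact (hvgall i).trans hj1) (hJ j (Finset.mem_range.mpr (by omega))) i₁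
      have h3 : β = aeval t (pderiv (i₁ : ι) F) / (N : K) ^ j * (N' : K) ^ j := by
        have h5 : (N' : K) ^ j ≠ 0 := pow_ne_zero _ hN'K
        have h6 : (p : K) ^ j ≠ 0 := pow_ne_zero _ hpK
        rw [hβ, hNN, Nat.cast_mul, mul_pow]
        field_simp
        rfl
      rw [h3]
      exact R.mul_mem h2 (R.pow_mem (natCast_mem R N') _)
    rintro ((i | i) | (_ | _))
    · exact htR i
    · show T i ∈ R
      by_cases hi : i = i₀
      · rw [hT]; simp only [if_pos hi]; exact R.zero_mem
      · rw [hT]; simp only [if_neg hi]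
        exact h1.1 i
    · exact hβR
    · exact hαR

end Pool.Agent.H96.Nod
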