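import Pool.Agent.H96.Nod.Good2
import Mathlib.RingTheory.Radical.NatInt

/-!
# Regular models of forms with nondegenerate singular points in the fibres
-/

set_option autoImplicit false
set_option linter.unusedSectionVars false

namespace Pool.Agent.H96.Nod

open MvPolynomial Pool.Agent.H96.VL Pool.Agent.H96.Reg IsLocalRing
open scoped Pointwise

variable {ι : Type} [Fintype ι] [DecidableEq ι] {K : Type} [Field K]

theorem val_le_of_mem_span {V : ValuationSubring K} {F : MvPolynomial ι ℤ} {t : ι → K}
    (ht : ∀ i, V.valuation (t i) ≤ 1) (hF : aeval t F = 0) {γ : V.ValueGroup}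
    (hγ : ∀ i, V.valuation (aeval t (pderiv i F)) ≤ γ) {h : MvPolynomial ι ℤ}
    (hh : h ∈ Ideal.span ({F} ∪ Set.range fun j => pderiv j F)) : V.valuation (aeval t h) ≤ γ := by
  induction hh using Submodule.span_induction with
  | mem x hx =>
    rcases hx with rfl | ⟨j, rfl⟩
    · rw [hF, map_zero]; exact zero_le
    · exact hγ j
  | zero => rw [map_zero, map_zero]; exact zero_le
  | add x y _ _ hx hy =>
    rw [map_add]
    exact (V.valuation.map_add _ _).trans (max_le hx hy)
  | smul a x _ hx =>
    rw [smul_eq_mul, map_mul, map_mul]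
    calc V.valuation (aeval t a) * V.valuation (aeval t x) ≤ 1 * γ :=
          mul_le_mul' (resv_aeval t ht a).1 hx
      _ = γ := one_mul _

theorem nonempty_prod [DecidableEq K] {κ : Type} (A : Finset κ) {s : κ → Finset K}
    (hs : ∀ c ∈ A, (s c).Nonempty) : (∏ c ∈ A, s c).Nonempty := by
  classical
  induction A using Finset.induction_on with
  | empty => rw [Finset.prod_empty]; exact Finset.one_nonempty
  | insert a A ha ih =>
    rw [Finset.prod_insert ha]
    exact (hs a (Finset.mem_insert_self a A)).mul (ih fun c hc => hs c (Finset.mem_insert_of_mem hc))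

variable [CharZero K]

/-- **Regular models of hypersurfaces all of whose fibres have only nondegenerate singular points
where the model is not smooth.** -/
theorem hasCharts (F : MvPolynomial ι ℤ) (d : ℕ) (hF : F.IsHomogeneous d) (x : ι → K) {i₃ : ι}
    (hx : x i₃ = 1) (hFx : aeval x F = 0) (hgen : Subfield.closure (Set.range x) = ⊤)
    (htr : (Nat.card ι : Cardinal.{0}) ≤ Algebra.trdeg ℤ K + 2) (D : ℤ) (hD : D ≠ 0) (e : ℕ)
    (hDe : ∀ i, C D * X i ^ e ∈ Ideal.span ({F} ∪ Set.range fun j => pderiv j F))
    (hnod : ∀ (k : Type) [Field k] (a : ι → k) (i : ι), a i = 1 → aeval a F = 0 →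
      (∀ j, aeval a (pderiv j F) = 0) →
      (Matrix.of fun (j l : {j // j ≠ i}) => aeval a (pderiv (j : ι) (pderiv (l : ι) F))).det ≠ 0) :
    Pool.Agent.H19.OG.HasCharts K := by
  classical
  set N : ℕ := UniqueFactorizationMonoid.radical D.natAbs with hNdef
  have hDn : D.natAbs ≠ 0 := Int.natAbs_ne_zero.mpr hD
  have hNsq : Squarefree N := UniqueFactorizationMonoid.squarefree_radical
  obtain ⟨M, hM⟩ : ∃ M, D.natAbs ∣ N ^ M :=
    UniqueFactorizationMonoid.exists_dvd_radical_self_pow hDn
  have hN0 : N ≠ 0 := hNsq.ne_zero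
  have hNK : (N : K) ≠ 0 := by exact_mod_cast hN0
  have hDK : (D : K) ≠ 0 := by exact_mod_cast hD
  have hone : (1 : K) ∈ XS x := by
    rw [XS, Finset.mem_erase]
    exact ⟨one_ne_zero, by rw [← hx]; exact Finset.mem_image_of_mem _ (Finset.mem_univ _)⟩
  obtain ⟨w, hw⟩ : (∏ l ∈ Finset.range (M + 1 + 1), JS F x N d l).Nonempty := by
    apply nonempty_prod
    intro l _
    exact ⟨(N : K) ^ l * 1 ^ (d - 1), Finset.mem_union_right _
      (Finset.mul_mem_mul (Finset.mem_singleton_self _) (Finset.pow_mem_pow hone))⟩
  have h0 : (0 : K) ∉ Tot F x N d (M + 1 + 1) := zero_notMem_Tot hNK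
  have hg₀ : w ∈ Tot F x N d (M + 1 + 1) := by
    rw [Tot, ← one_mul w]
    exact Finset.mul_mem_mul hone hw
  have hw0 : w ≠ 0 := by rintro rfl; exact h0 hg₀
  refine hasCharts_of_vlocal _ h0 w hg₀ ?_ fun V => ?_
  · apply isFractionRing_of_closure
    rw [eq_top_iff, ← hgen, Subfield.closure_le]
    rintro _ ⟨i, rfl⟩
    by_cases hi : x i = 0
    · rw [hi]; exact Subfield.zero_mem _
    · apply Subfield.subset_closure
      have h1 : x i * w ∈ Tot F x N d (M + 1 + 1) := by
        refine Finset.mul_mem_mul ?_ hw
        rw [XS, Finset.mem_erase]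
        exact ⟨hi, Finset.mem_image_of_mem _ (Finset.mem_univ _)⟩
      have h2 : x i = x i * w / w := by field_simp
      rw [h2]
      exact Algebra.subset_adjoin ⟨⟨x i * w, h1⟩, rfl⟩
  · -- the condition along `V`
    obtain ⟨i₀, -, hi₀⟩ := Finset.exists_max_image Finset.univ (fun i => V.valuation (x i))
      ⟨i₃, Finset.mem_univ _⟩
    have hc0 : x i₀ ≠ 0 := by
      intro h
      have h1 := hi₀ i₃ (Finset.mem_univ _)
      rw [h, hx, map_zero, map_one] at h1
      exact absurd h1 (not_le.mpr zero_lt_one)
    have hcv : 0 < V.valuation (x i₀) := by rw [Valuation.pos_iff]; exact hc0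
    have hC : Ctr V F x d i₀ (x i₀) (fun i => x i / x i₀) := by
      have hxt : x = fun i => x i₀ * (x i / x i₀) := by
        funext i
        field_simp
      refine ⟨hF, hc0, hxt, div_self hc0, fun i => ?_, ?_⟩
      · rw [map_div₀]
        exact (div_le_one₀ hcv).mpr (hi₀ i (Finset.mem_univ _))
      · have h1 := aeval_smul_of_isHomogeneous hF (x i₀) (fun i => x i / x i₀)
        rw [← hxt, hFx] at h1
        exact (mul_eq_zero.mp h1.symm).resolve_left (pow_ne_zero _ hc0)
    set t : ι → K := fun i => x i / x i₀ with ht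
    by_cases hsm : ∃ i₂ : Aff i₀, V.valuation (aeval t (pderiv (i₂ : ι) F)) = 1
    · obtain ⟨i₂, hi₂⟩ := hsm
      exact good_smooth hC hx hgen htr hNK hi₂
    · push Not at hsm
      have hno : ∀ i, i ≠ i₀ → V.valuation (aeval t (pderiv i F)) < 1 := fun i hi =>
        lt_of_le_of_ne (hC.vg _) (hsm ⟨i, hi⟩)
      have hDmem := hDe i₀
      have hDval : aeval t (C D * X i₀ ^ e) = (D : K) := by
        rw [map_mul, map_pow, aeval_X, aeval_C, algebraMap_int_eq, eq_intCast]
        have : t i₀ = 1 := hC.t0
        rw [this, one_pow, mul_one]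
      have heul : ∀ γ : V.ValueGroup, (∀ i : Aff i₀, V.valuation (aeval t (pderiv (i : ι) F)) ≤ γ) →
          V.valuation (aeval t (pderiv i₀ F)) ≤ γ := by
        intro γ hγ
        rw [hC.euler, Valuation.map_neg]
        refine Valuation.map_sum_le _ fun l _ => ?_
        rw [map_mul]
        calc V.valuation (t l) * V.valuation (aeval t (pderiv (l : ι) F)) ≤ 1 * γ :=
              mul_le_mul' (hC.vt l) (hγ l)
          _ = _ := one_mul _
      have hDle : ∀ γ : V.ValueGroup, (∀ i : Aff i₀, V.valuation (aeval t (pderiv (i : ι) F)) ≤ γ) →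
          V.valuation (D : K) ≤ γ := by
        intro γ hγ
        rw [← hDval]
        refine val_le_of_mem_span hC.vt hC.Ft (fun i => ?_) hDmem
        by_cases hi : i = i₀
        · rw [hi]; exact heul γ hγ
        · exact hγ ⟨i, hi⟩
      have hDv : 0 < V.valuation (D : K) := by rw [Valuation.pos_iff]; exact hDK
      have hne : Nonempty (Aff i₀) := by
        by_contra hemp
        rw [not_nonempty_iff] at hemp
        exact absurd (hDle 0 fun i => (hemp.false i).elim) (not_le.mpr hDv)
      obtain ⟨i₁, -, hi₁⟩ := Finset.exists_max_image (Finset.univ : Finset (Aff i₀))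
        (fun i => V.valuation (aeval t (pderiv (i : ι) F))) Finset.univ_nonempty
      have hmax : ∀ i, i ≠ i₀ → V.valuation (aeval t (pderiv i F)) ≤
          V.valuation (aeval t (pderiv (i₁ : ι) F)) := fun i hi => hi₁ ⟨i, hi⟩ (Finset.mem_univ _)
      have hDg := hDle _ fun i => hi₁ i (Finset.mem_univ _)
      have hg1 : aeval t (pderiv (i₁ : ι) F) ≠ 0 := by
        intro h
        rw [h, map_zero] at hDg
        exact absurd hDg (not_le.mpr hDv)
      obtain ⟨p, hp, hpD, hvp⟩ := exists_prime_of_int hD (hDg.trans_lt (hno _ i₁.2))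
      have hpN : p ∣ N := by
        have h1 : p ∣ N ^ M := (Int.natCast_dvd.mp hpD).trans hM
        exact hp.dvd_of_dvd_pow h1
      obtain ⟨N', hNN, hvN'⟩ := exists_cofactor hp hvp hNsq hpN
      have hpK : (p : K) ≠ 0 := by exact_mod_cast hp.ne_zero
      have hvpp : 0 < V.valuation (p : K) := by rw [Valuation.pos_iff]; exact hpK
      have hMlt : V.valuation (p : K) ^ (M + 1) < V.valuation (aeval t (pderiv (i₁ : ι) F)) := by
        have h1 : V.valuation (p : K) ^ (M + 1) < V.valuation (p : K) ^ M :=
          pow_lt_pow_right_of_lt_one₀ hvpp hvp (by omega)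
        have h2 : V.valuation (p : K) ^ M ≤ V.valuation (D : K) := by
          obtain ⟨D', hD'⟩ := hM
          have h3 : V.valuation (p : K) ^ M = V.valuation ((N : K) ^ M) := by
            rw [hNN, Nat.cast_mul, map_pow, map_mul, hvN', mul_one]
          have h4 : ((N : K) ^ M) = (D.natAbs : K) * (D' : K) := by exact_mod_cast hD'
          have h5 : V.valuation ((D.natAbs : ℕ) : K) = V.valuation (D : K) := by
            rcases Int.natAbs_eq D with h | h
            · conv_rhs => rw [h]
              simp
            · conv_rhs => rw [h]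
              rw [Int.cast_neg, Valuation.map_neg]
              simp
          rw [h3, h4, map_mul, h5]
          calc V.valuation (D : K) * V.valuation (D' : K) ≤ V.valuation (D : K) * 1 :=
                mul_le_mul' le_rfl (val_natCast_le V D')
            _ = _ := mul_one _
        exact (h1.trans_le h2).trans_le hDg
      have hay : ∀ f : MvPolynomial ι ℤ, evk (fun i => resv V (t i)) f = resv V (aeval t f) :=
        fun f => (resv_aeval t hC.vt f).2.symm
      have hdet := hnod (ResidueField V) (fun i => resv V (t i)) i₀ (by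
          have h1 : t i₀ = 1 := hC.t0
          show resv V (t i₀) = 1
          rw [h1]
          have := resv_intCast V 1
          rw [Int.cast_one, Int.cast_one] at this
          exact this) (by
          show evk (fun i => resv V (t i)) F = 0
          rw [hay, hC.Ft]
          exact (resv_eq_zero_iff (by simp)).mpr (by simp)) (by
          intro j
          show evk (fun i => resv V (t i)) (pderiv j F) = 0
          rw [hay]
          refine (resv_eq_zero_iff (hC.vg _)).mpr ?_
          by_cases hj : j = i₀
          · rw [hj]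
            exact (heul _ fun i => hi₁ i (Finset.mem_univ _)).trans_lt (hno _ i₁.2)
          · exact hno j hj)
      exact good_nodal hC hx hgen htr hp hvp hNN hvN' hno hg1 hmax hMlt hdet

end Pool.Agent.H96.Nod
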