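import Pool.Agent.H96.IndepLin
import Mathlib.RingTheory.Derivation.Lie

/-!
# A local Morse lemma over the integers
-/

set_option autoImplicit false
set_option linter.unusedSectionVars false

namespace Pool.Agent.H96.Nod

open MvPolynomial Pool.Agent.H96.VL Pool.Agent.H96.Reg

variable {ι : Type} [Fintype ι] [DecidableEq ι] {k : Type} [Field k]

/-- The indices of the affine coordinates. -/
abbrev Aff (i₀ : ι) : Type := {j : ι // j ≠ i₀}

theorem pderiv_comm' (i j : ι) (F : MvPolynomial ι ℤ) :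
    pderiv i (pderiv j F) = pderiv j (pderiv i F) := by
  have h : ⁅(pderiv i : Derivation ℤ (MvPolynomial ι ℤ) (MvPolynomial ι ℤ)),
      (pderiv j : Derivation ℤ (MvPolynomial ι ℤ) (MvPolynomial ι ℤ))⁆ = 0 := by
    apply MvPolynomial.derivation_ext
    intro l
    rw [Derivation.commutator_apply, pderiv_X, pderiv_X]
    have h1 : ∀ a b : ι, pderiv a ((Pi.single b (1 : MvPolynomial ι ℤ) :
        ι → MvPolynomial ι ℤ) l) = 0 := by
      intro a b
      by_cases hb : l = b
      · subst hb
        rw [Pi.single_eq_same]; exact pderiv_one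
      · rw [Pi.single_eq_of_ne hb, map_zero]
    rw [h1, h1, sub_zero]
    rfl
  have h2 := congrArg (fun D => D F) h
  simp only [Derivation.commutator_apply, Derivation.zero_apply] at h2
  exact sub_eq_zero.mp h2

/-- Membership in the ideal generated by the `g_j`, `p ^ k` and `X i₀ - 1`. -/
def MemI (g : ι → MvPolynomial ι ℤ) (i₀ : ι) (p m : ℕ) (h : MvPolynomial ι ℤ) : Prop :=
  ∃ (a : Aff i₀ → MvPolynomial ι ℤ) (r w : MvPolynomial ι ℤ),
    h = ∑ j, a j * g j + (p : MvPolynomial ι ℤ) ^ m * r + (X i₀ - 1) * w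

section Mem

variable {g : ι → MvPolynomial ι ℤ} {i₀ : ι} {p m : ℕ}

theorem MemI.add {h h' : MvPolynomial ι ℤ} (h1 : MemI g i₀ p m h) (h2 : MemI g i₀ p m h') :
    MemI g i₀ p m (h + h') := by
  obtain ⟨a, r, w, rfl⟩ := h1
  obtain ⟨a', r', w', rfl⟩ := h2
  refine ⟨fun j => a j + a' j, r + r', w + w', ?_⟩
  simp only [add_mul, Finset.sum_add_distrib]
  ring

theorem MemI.mul_left {h : MvPolynomial ι ℤ} (c : MvPolynomial ι ℤ) (h1 : MemI g i₀ p m h) :
    MemI g i₀ p m (c * h) := by
  obtain ⟨a, r, w, rfl⟩ := h1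
  refine ⟨fun j => c * a j, c * r, c * w, ?_⟩
  rw [mul_add, mul_add, Finset.mul_sum]
  congr 1
  · congr 1
    · exact Finset.sum_congr rfl fun j _ => by ring
    · ring
  · ring

theorem MemI.zero : MemI g i₀ p m 0 := ⟨fun _ => 0, 0, 0, by simp⟩

theorem MemI.neg {h : MvPolynomial ι ℤ} (h1 : MemI g i₀ p m h) : MemI g i₀ p m (-h) := by
  have := h1.mul_left (-1)
  rwa [neg_one_mul] at this

theorem MemI.sub {h h' : MvPolynomial ι ℤ} (h1 : MemI g i₀ p m h) (h2 : MemI g i₀ p m h') :
    MemI g i₀ p m (h - h') := by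
  rw [sub_eq_add_neg]
  exact h1.add h2.neg

theorem MemI.sum {κ : Type} (s : Finset κ) {h : κ → MvPolynomial ι ℤ}
    (h1 : ∀ c ∈ s, MemI g i₀ p m (h c)) : MemI g i₀ p m (∑ c ∈ s, h c) := by
  classical
  induction s using Finset.induction_on with
  | empty => simpa using MemI.zero
  | insert a s ha ih =>
    rw [Finset.sum_insert ha]
    exact (h1 a (Finset.mem_insert_self a s)).add (ih fun c hc => h1 c (Finset.mem_insert_of_mem hc))

theorem memI_g (j : Aff i₀) : MemI g i₀ p m (g j) := by
  refine ⟨Pi.single j 1, 0, 0, ?_⟩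
  rw [Finset.sum_eq_single j (fun b _ hb => by rw [Pi.single_eq_of_ne hb, zero_mul])
    (fun h => absurd (Finset.mem_univ _) h), Pi.single_eq_same]
  ring

theorem memI_p : MemI g i₀ p m ((p : MvPolynomial ι ℤ) ^ m) := ⟨fun _ => 0, 1, 0, by simp⟩

theorem memI_X : MemI g i₀ p m (X i₀ - 1) := ⟨fun _ => 0, 0, 1, by simp⟩

end Mem

/-- The situation at a nondegenerate singular point of a fibre. -/
structure Nodal (F : MvPolynomial ι ℤ) (i₀ : ι) (p : ℕ) (y : ι → k) : Prop where
  hp : p.Prime
  pk : (p : k) = 0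
  yi : y i₀ = 1
  F0 : aeval y F = 0
  g0 : ∀ j, j ≠ i₀ → aeval y (pderiv j F) = 0
  det : (Matrix.of fun (j l : Aff i₀) => aeval y (pderiv (j : ι) (pderiv (l : ι) F))).det ≠ 0

/-- The Hessian at the point. -/
noncomputable def Hm (F : MvPolynomial ι ℤ) (i₀ : ι) (y : ι → k) : Matrix (Aff i₀) (Aff i₀) k :=
  Matrix.of fun (j l : Aff i₀) => aeval y (pderiv (j : ι) (pderiv (l : ι) F))

theorem Hm_symm (F : MvPolynomial ι ℤ) (i₀ : ι) (y : ι → k) (j l : Aff i₀) :
    Hm F i₀ y j l = Hm F i₀ y l j := by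
  rw [Hm, Matrix.of_apply, Matrix.of_apply, pderiv_comm']

variable {F : MvPolynomial ι ℤ} {i₀ : ι} {p : ℕ} {y : ι → k}

theorem Nodal.eq_zero (h : Nodal F i₀ p y) {w : Aff i₀ → k} (hw : ∀ l, ∑ j, w j * Hm F i₀ y l j = 0) :
    w = 0 := by
  have hdet : (Hm F i₀ y).det ≠ 0 := h.det
  have h1 : (Hm F i₀ y).mulVec w = 0 := by
    funext l
    rw [Matrix.mulVec, dotProduct, Pi.zero_apply, ← hw l]
    exact Finset.sum_congr rfl fun j _ => mul_comm _ _
  exact Matrix.eq_zero_of_mulVec_eq_zero hdet h1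

theorem pderiv_sub_one {l : ι} (hl : l ≠ i₀) : pderiv l ((X i₀ : MvPolynomial ι ℤ) - 1) = 0 := by
  rw [map_sub, pderiv_X, Pi.single_eq_of_ne hl.symm, pderiv_one, sub_zero]

/-- The local generators of the maximal ideal of the point. -/
theorem Nodal.gen_local (h : Nodal F i₀ p y) {f : MvPolynomial ι ℤ} (hf : aeval y f = 0) :
    ∃ s, aeval y s ≠ 0 ∧ MemI (fun j => pderiv j F) i₀ p 1 (s * f) := by
  classical
  set P := RingHom.ker (aeval y : MvPolynomial ι ℤ →ₐ[ℤ] k) with hP
  have hPp : P.IsPrime := RingHom.ker_isPrime _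
  let fam : Option (Option (Aff i₀)) → MvPolynomial ι ℤ := fun c =>
    match c with
    | none => (p : MvPolynomial ι ℤ)
    | some none => X i₀ - 1
    | some (some j) => pderiv (j : ι) F
  have hfam : ∀ c, aeval y (fam c) = 0 := by
    rintro (_ | _ | j)
    · show aeval y (p : MvPolynomial ι ℤ) = 0
      rw [map_natCast]; exact h.pk
    · show aeval y ((X i₀ : MvPolynomial ι ℤ) - 1) = 0
      rw [map_sub, aeval_X, map_one, h.yi, sub_self]
    · exact h.g0 _ j.2
  have hind : IndepAt fam P := by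
    refine indepAt_of_linear y fam hfam none ?_ (Or.inr ⟨p, 1, 0, h.hp, h.pk, ?_, ?_, ?_⟩)
    · intro A hA
      have h1 : (fun j : Aff i₀ => A (some (some j))) = 0 := by
        apply h.eq_zero
        intro l
        have h2 := hA l
        rw [Fintype.sum_option, Fintype.sum_option] at h2
        have h3 : aeval y (pderiv (l : ι) (fam none)) = 0 := by
          show aeval y (pderiv (l : ι) (p : MvPolynomial ι ℤ)) = 0
          rw [Derivation.map_natCast, map_zero]
        have h4 : aeval y (pderiv (l : ι) (fam (some none))) = 0 := by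
          show aeval y (pderiv (l : ι) ((X i₀ : MvPolynomial ι ℤ) - 1)) = 0
          rw [pderiv_sub_one l.2, map_zero]
        rw [h3, h4, mul_zero, mul_zero, zero_add, zero_add] at h2
        exact h2
      have h5 := hA i₀
      rw [Fintype.sum_option, Fintype.sum_option] at h5
      have h6 : ∀ j : Aff i₀, A (some (some j)) = 0 := fun j => congrFun h1 j
      simp only [h6, zero_mul, Finset.sum_const_zero, add_zero] at h5
      have h3 : aeval y (pderiv i₀ (fam none)) = 0 := by
        show aeval y (pderiv i₀ (p : MvPolynomial ι ℤ)) = 0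
        rw [Derivation.map_natCast, map_zero]
      have h4 : aeval y (pderiv i₀ (fam (some none))) = 1 := by
        show aeval y (pderiv i₀ ((X i₀ : MvPolynomial ι ℤ) - 1)) = 1
        rw [map_sub, pderiv_X, Pi.single_eq_same, pderiv_one, sub_zero, map_one]
      rw [h3, h4, mul_zero, zero_add, mul_one] at h5
      rintro (_ | _ | j) hc
      · exact absurd rfl hc
      · exact h5
      · exact h6 j
    · rw [map_one]; exact one_ne_zero
    · show (p : MvPolynomial ι ℤ) = 1 * p + 0
      ring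
    · exact Ideal.zero_mem _
  have hcard : Fintype.card (Option (Option (Aff i₀))) = Fintype.card ι + 1 := by
    rw [Fintype.card_option, Fintype.card_option, Fintype.card_subtype_compl, Fintype.card_subtype_eq]
    have : 0 < Fintype.card ι := Fintype.card_pos_iff.mpr ⟨i₀⟩
    omega
  have hht : P.height ≤ (Fintype.card (Option (Option (Aff i₀))) : ℕ) := by
    have h1 := Ideal.height_le_ringKrullDim_of_isPrime (I := P)
    rw [MvPolynomial.ringKrullDim_of_isNoetherianRing,
      IsPrincipalIdealRing.ringKrullDim_eq_one ℤ Int.not_isField] at h1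
    rw [hcard]
    have h2 : Nat.card ι = Fintype.card ι := Nat.card_eq_fintype_card
    rw [h2] at h1
    have h3 : (P.height : WithBot ℕ∞) ≤ ((Fintype.card ι + 1 : ℕ) : WithBot ℕ∞) := by
      refine h1.trans (le_of_eq ?_)
      push_cast
      rw [add_comm]
    exact_mod_cast h3
  let ε : Fin (Fintype.card (Option (Option (Aff i₀)))) ≃ Option (Option (Aff i₀)) :=
    (Fintype.equivFin _).symm
  obtain ⟨s, hs, hsf⟩ := exists_mul_mem_of_height_le (fam ∘ ε) P (fun i => hfam _) hht
    (hind.comp_equiv ε) (x := f) hf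
  refine ⟨s, hs, ?_⟩
  have hrange : Set.range (fam ∘ ε) = Set.range fam := by
    rw [Set.range_comp, ε.surjective.range_eq, Set.image_univ]
  rw [hrange, Ideal.mem_span_range_iff_exists_fun] at hsf
  obtain ⟨c, hc⟩ := hsf
  rw [Fintype.sum_option, Fintype.sum_option] at hc
  refine ⟨fun j => c (some (some j)), c none, c (some none), ?_⟩
  rw [← hc]
  show c none * (p : MvPolynomial ι ℤ) + (c (some none) * (X i₀ - 1) +
    ∑ j : Aff i₀, c (some (some j)) * pderiv (j : ι) F) = _
  ring

end Pool.Agent.H96.Nod
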