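import Pool.Agent.H96.Nod.Morse

/-!
# A local Morse lemma over the integers, continued
-/

set_option autoImplicit false
set_option linter.unusedSectionVars false

namespace Pool.Agent.H96.Nod

open MvPolynomial Pool.Agent.H96.VL Pool.Agent.H96.Reg

variable {ι : Type} [Fintype ι] [DecidableEq ι] {k : Type} [Field k]

/-- The Hessian as a matrix of polynomials. -/
noncomputable def HP (F : MvPolynomial ι ℤ) (i₀ : ι) :
    Matrix (Aff i₀) (Aff i₀) (MvPolynomial ι ℤ) :=
  Matrix.of fun j l => pderiv (j : ι) (pderiv (l : ι) F)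

theorem HP_symm (F : MvPolynomial ι ℤ) (i₀ : ι) (j l : Aff i₀) : HP F i₀ j l = HP F i₀ l j := by
  rw [HP, Matrix.of_apply, Matrix.of_apply, pderiv_comm']

theorem aeval_det_HP (F : MvPolynomial ι ℤ) (i₀ : ι) (y : ι → k) :
    aeval y (HP F i₀).det = (Hm F i₀ y).det := by
  have h := RingHom.map_det (aeval y : MvPolynomial ι ℤ →ₐ[ℤ] k).toRingHom (HP F i₀)
  exact h

/-- A Morse form of `F` modulo `p ^ m`. -/
structure IsMorse (F : MvPolynomial ι ℤ) (i₀ : ι) (p : ℕ) (y : ι → k) (m : ℕ)
    (s : MvPolynomial ι ℤ) (q : Aff i₀ → Aff i₀ → MvPolynomial ι ℤ) (r w : MvPolynomial ι ℤ) :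
    Prop where
  s0 : aeval y s ≠ 0
  eq : s * F = ∑ i, ∑ j, q i j * (pderiv (i : ι) F * pderiv (j : ι) F) +
    (p : MvPolynomial ι ℤ) ^ m * r + (X i₀ - 1) * w

variable {F : MvPolynomial ι ℤ} {i₀ : ι} {p : ℕ} {y : ι → k}

/-- The first step: membership gives a Morse form. -/
theorem Nodal.exists_morse (h : Nodal F i₀ p y) {m : ℕ} {s : MvPolynomial ι ℤ}
    (hs : aeval y s ≠ 0) (hF : MemI (fun j => pderiv j F) i₀ p m (s * F)) :
    ∃ s' q r w, IsMorse F i₀ p y m s' q r w := by
  classical
  have hF' := hF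
  obtain ⟨a, r, w, haF⟩ := hF
  -- the linear combinations of the second derivatives
  have h1 : ∀ l : Aff i₀, MemI (fun j => pderiv j F) i₀ p m (s * ∑ j, a j * HP F i₀ l j) := by
    intro l
    have h2 := congrArg (pderiv (l : ι)) haF
    rw [Derivation.leibniz, map_add, map_add, map_sum, Derivation.leibniz, Derivation.leibniz,
      pderiv_sub_one l.2] at h2
    have h3 : ∀ j : Aff i₀, pderiv (l : ι) (a j * pderiv (j : ι) F) =
        a j * HP F i₀ l j + pderiv (l : ι) (a j) * pderiv (j : ι) F := by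
      intro j
      rw [Derivation.leibniz, smul_eq_mul, smul_eq_mul, HP, Matrix.of_apply]
      ring
    rw [Finset.sum_congr rfl fun j _ => h3 j, Finset.sum_add_distrib] at h2
    have h4 : pderiv (l : ι) ((p : MvPolynomial ι ℤ) ^ m) = 0 := by
      have : (p : MvPolynomial ι ℤ) ^ m = ((p ^ m : ℕ) : MvPolynomial ι ℤ) := by push_cast; rfl
      rw [this, Derivation.map_natCast]
    rw [h4] at h2
    simp only [smul_eq_mul] at h2
    have h5 : s * ∑ j, a j * HP F i₀ l j = (s * s) * pderiv (l : ι) F +
        pderiv (l : ι) s * (s * F) - s * ∑ j : Aff i₀, pderiv (l : ι) (a j) * pderiv (j : ι) F -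
        (s * pderiv (l : ι) r) * (p : MvPolynomial ι ℤ) ^ m -
        (s * pderiv (l : ι) w) * (X i₀ - 1) := by
      linear_combination (-s) * h2
    rw [h5]
    refine MemI.sub (MemI.sub (MemI.sub (MemI.add ?_ (hF'.mul_left _)) ?_) ?_) ?_
    · exact (memI_g (g := fun j => pderiv j F) l).mul_left _
    · refine MemI.mul_left _ (MemI.sum _ fun j _ => ?_)
      exact (memI_g (g := fun j => pderiv j F) j).mul_left _
    · exact memI_p.mul_left _
    · exact memI_X.mul_left _
  have h2 : ∀ j : Aff i₀, MemI (fun j => pderiv j F) i₀ p m (s * (HP F i₀).det * a j) := by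
    intro j
    have h3 : (HP F i₀).det * a j = ∑ l, (HP F i₀).adjugate j l * ∑ j', a j' * HP F i₀ l j' := by
      have h4 := congrArg (fun M : Matrix (Aff i₀) (Aff i₀) (MvPolynomial ι ℤ) => M.mulVec a j)
        (Matrix.adjugate_mul (HP F i₀))
      simp only [← Matrix.mulVec_mulVec, Matrix.smul_mulVec, Matrix.one_mulVec, Pi.smul_apply,
        smul_eq_mul] at h4
      rw [← h4, Matrix.mulVec, dotProduct]
      refine Finset.sum_congr rfl fun l _ => ?_
      rw [Matrix.mulVec, dotProduct]
      congr 1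
      exact Finset.sum_congr rfl fun j' _ => mul_comm _ _
    rw [mul_assoc, h3, Finset.mul_sum]
    refine MemI.sum _ fun l _ => ?_
    have h5 : s * ((HP F i₀).adjugate j l * ∑ j', a j' * HP F i₀ l j') =
        (HP F i₀).adjugate j l * (s * ∑ j', a j' * HP F i₀ l j') := by ring
    rw [h5]
    exact (h1 l).mul_left _
  choose q r' w' hq using h2
  refine ⟨s * (HP F i₀).det * s, fun i j => q i j,
    ∑ j : Aff i₀, r' j * pderiv (j : ι) F + s * (HP F i₀).det * r,
    ∑ j : Aff i₀, w' j * pderiv (j : ι) F + s * (HP F i₀).det * w, ?_, ?_⟩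
  · rw [map_mul, map_mul, aeval_det_HP]
    exact mul_ne_zero (mul_ne_zero hs h.det) hs
  · have h6 : s * (HP F i₀).det * s * F = s * (HP F i₀).det * (s * F) := by ring
    rw [h6, haF]
    have h7 : s * (HP F i₀).det * (∑ j : Aff i₀, a j * pderiv (j : ι) F +
        (p : MvPolynomial ι ℤ) ^ m * r + (X i₀ - 1) * w) =
        ∑ j : Aff i₀, (s * (HP F i₀).det * a j) * pderiv (j : ι) F +
        s * (HP F i₀).det * ((p : MvPolynomial ι ℤ) ^ m * r + (X i₀ - 1) * w) := by
      rw [add_assoc, mul_add, Finset.mul_sum]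
      congr 1
      exact Finset.sum_congr rfl fun j _ => by ring
    rw [h7]
    have h8 : ∀ j : Aff i₀, (s * (HP F i₀).det * a j) * pderiv (j : ι) F =
        ∑ i : Aff i₀, q j i * (pderiv (j : ι) F * pderiv (i : ι) F) +
        (p : MvPolynomial ι ℤ) ^ m * (r' j * pderiv (j : ι) F) +
        (X i₀ - 1) * (w' j * pderiv (j : ι) F) := by
      intro j
      rw [hq j, add_mul, add_mul, Finset.sum_mul]
      congr 1
      · congr 1
        · exact Finset.sum_congr rfl fun i _ => by ring
        · ring
      · ring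
    rw [Finset.sum_congr rfl fun j _ => h8 j, Finset.sum_add_distrib, Finset.sum_add_distrib,
      ← Finset.mul_sum, ← Finset.mul_sum]
    ring

/-- Second derivatives of a product of functions vanishing at the point. -/
theorem aeval_pderiv_pderiv_mul {u v : MvPolynomial ι ℤ} (hu : aeval y u = 0) (hv : aeval y v = 0)
    (l m : ι) : aeval y (pderiv l (pderiv m (u * v))) =
      aeval y (pderiv l u) * aeval y (pderiv m v) + aeval y (pderiv m u) * aeval y (pderiv l v) := by
  rw [Derivation.leibniz, map_add, smul_eq_mul, smul_eq_mul, Derivation.leibniz,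
    Derivation.leibniz, map_add, map_add, map_add]
  simp only [smul_eq_mul, map_mul, hu, hv]
  ring

/-- The bilinear form of a Morse form is nondegenerate at the point. -/
theorem IsMorse.nondeg (h : Nodal F i₀ p y) {m : ℕ} (hm : 1 ≤ m) {s r w : MvPolynomial ι ℤ}
    {q : Aff i₀ → Aff i₀ → MvPolynomial ι ℤ} (hM : IsMorse F i₀ p y m s q r w)
    {T : Aff i₀ → k} (hT : ∀ i, ∑ j, aeval y (q i j + q j i) * T j = 0) : T = 0 := by
  classical
  set H := Hm F i₀ y with hH
  let B : Matrix (Aff i₀) (Aff i₀) k := Matrix.of fun i j => aeval y (q i j + q j i)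
  have hs := hM.s0
  have key : ∀ l n : Aff i₀, aeval y s * H l n = ∑ i, ∑ j, H l i * B i j * H j n := by
    intro l n
    have h1 := congrArg (fun f => aeval y (pderiv (l : ι) (pderiv (n : ι) f))) hM.eq
    have h2 : aeval y (pderiv (l : ι) (pderiv (n : ι) (s * F))) = aeval y s * H l n := by
      rw [Derivation.leibniz, map_add, smul_eq_mul, smul_eq_mul, Derivation.leibniz,
        Derivation.leibniz, map_add, map_add, map_add]
      simp only [smul_eq_mul, map_mul, h.F0, h.g0 l l.2, h.g0 n n.2]
      rw [hH, Hm, Matrix.of_apply]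
      ring
    have h3 : aeval y (pderiv (l : ι) (pderiv (n : ι) ((p : MvPolynomial ι ℤ) ^ m * r))) = 0 := by
      have h4 : ∀ (a : ι) (f : MvPolynomial ι ℤ), pderiv a ((p : MvPolynomial ι ℤ) ^ m * f) =
          (p : MvPolynomial ι ℤ) ^ m * pderiv a f := by
        intro a f
        have : (p : MvPolynomial ι ℤ) ^ m = ((p ^ m : ℕ) : MvPolynomial ι ℤ) := by push_cast; rfl
        rw [this, Derivation.leibniz, Derivation.map_natCast, smul_eq_mul, smul_zero, add_zero]
      rw [h4, h4, map_mul, map_pow, map_natCast, h.pk, zero_pow (by omega), zero_mul]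
    have h5 : aeval y (pderiv (l : ι) (pderiv (n : ι) (((X i₀ : MvPolynomial ι ℤ) - 1) * w))) = 0 := by
      have h4 : ∀ (a : ι), a ≠ i₀ → ∀ (f : MvPolynomial ι ℤ),
          pderiv a (((X i₀ : MvPolynomial ι ℤ) - 1) * f) =
          ((X i₀ : MvPolynomial ι ℤ) - 1) * pderiv a f := by
        intro a ha f
        rw [Derivation.leibniz, pderiv_sub_one ha, smul_eq_mul, smul_zero, add_zero]
      rw [h4 _ n.2, h4 _ l.2, map_mul, map_sub, aeval_X, h.yi, map_one, sub_self, zero_mul]
    have h6 : ∀ i j : Aff i₀, aeval y (pderiv (l : ι) (pderiv (n : ι)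
        (q i j * (pderiv (i : ι) F * pderiv (j : ι) F)))) =
        aeval y (q i j) * (H l i * H n j + H n i * H l j) := by
      intro i j
      have h7 : q i j * (pderiv (i : ι) F * pderiv (j : ι) F) =
        (q i j * pderiv (i : ι) F) * pderiv (j : ι) F := by ring
      have h8 : aeval y (q i j * pderiv (i : ι) F) = 0 := by rw [map_mul, h.g0 _ i.2, mul_zero]
      have h9 : ∀ a : ι, aeval y (pderiv a (q i j * pderiv (i : ι) F)) =
          aeval y (q i j) * aeval y (pderiv a (pderiv (i : ι) F)) := by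
        intro a
        rw [Derivation.leibniz, map_add, smul_eq_mul, smul_eq_mul, map_mul, map_mul, h.g0 _ i.2,
          zero_mul, add_zero]
      rw [h7, aeval_pderiv_pderiv_mul h8 (h.g0 _ j.2), h9, h9]
      simp only [hH, Hm, Matrix.of_apply]
      ring
    simp only [map_add, map_sum] at h1
    rw [h2, h3, h5, add_zero, add_zero] at h1
    rw [h1]
    simp only [h6]
    have h10 : ∀ i j : Aff i₀, H n i = H i n := fun i _ => by rw [hH]; exact Hm_symm F i₀ y n i
    simp only [mul_add, Finset.sum_add_distrib]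
    have h11 : ∑ i, ∑ j, aeval y (q i j) * (H n i * H l j) =
        ∑ i, ∑ j, aeval y (q j i) * (H l i * H n j) := by
      rw [Finset.sum_comm]
      exact Finset.sum_congr rfl fun i _ => Finset.sum_congr rfl fun j _ => by ring
    rw [h11, ← Finset.sum_add_distrib]
    refine Finset.sum_congr rfl fun i _ => ?_
    rw [← Finset.sum_add_distrib]
    refine Finset.sum_congr rfl fun j _ => ?_
    rw [h10 j j]
    simp only [B, Matrix.of_apply, map_add]
    ring
  -- matrix form
  have hHs : H.transpose = H := by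
    ext i j
    rw [Matrix.transpose_apply, hH]
    exact Hm_symm F i₀ y j i
  have hBs : B.transpose = B := by
    ext i j
    simp only [Matrix.transpose_apply, B, Matrix.of_apply]
    rw [add_comm]
  have h1 : aeval y s • H = H * B * H := by
    ext l n
    rw [Matrix.smul_apply, smul_eq_mul, key, Matrix.mul_apply, Finset.sum_comm]
    refine Finset.sum_congr rfl fun j _ => ?_
    rw [Matrix.mul_apply, Finset.sum_mul]
  have hdet : IsUnit H.det := isUnit_iff_ne_zero.mpr h.det
  have h2 : H * B = aeval y s • (1 : Matrix (Aff i₀) (Aff i₀) k) := by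
    have h3 : H * B * H * H⁻¹ = aeval y s • H * H⁻¹ := by rw [h1]
    rw [Matrix.mul_assoc, Matrix.mul_nonsing_inv _ hdet, Matrix.mul_one, Matrix.smul_mul,
      Matrix.mul_nonsing_inv _ hdet] at h3
    exact h3
  have h3 : B.mulVec T = 0 := by
    funext i
    rw [Matrix.mulVec, dotProduct, Pi.zero_apply, ← hT i]
    rfl
  have h4 : (H * B).mulVec T = 0 := by
    rw [← Matrix.mulVec_mulVec, h3, Matrix.mulVec_zero]
  rw [h2, Matrix.smul_mulVec, Matrix.one_mulVec] at h4
  exact (smul_eq_zero.mp h4).resolve_left hs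

/-- **Local Morse lemma.** -/
theorem Nodal.exists_morse_max (h : Nodal F i₀ p y) (N : ℕ) :
    ∃ m s q r w, 1 ≤ m ∧ m ≤ N + 1 ∧ IsMorse F i₀ p y m s q r w ∧ (m < N + 1 → aeval y r ≠ 0) := by
  induction N with
  | zero =>
    obtain ⟨s, hs, hsF⟩ := h.gen_local h.F0
    obtain ⟨s', q, r, w, hM⟩ := h.exists_morse hs hsF
    exact ⟨1, s', q, r, w, le_rfl, by omega, hM, fun h => absurd h (by omega)⟩
  | succ N ih =>
    obtain ⟨m, s, q, r, w, h1, h2, hM, hr⟩ := ih
    by_cases hr0 : aeval y r = 0
    · have hm : m = N + 1 := by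
        by_contra hne
        exact hr (by omega) hr0
      subst hm
      obtain ⟨s', hs', hs'r⟩ := h.gen_local hr0
      have h3 : MemI (fun j => pderiv j F) i₀ p (N + 1 + 1) (s' * s * F) := by
        have h4 : s' * s * F = s' * (s * F) := by ring
        rw [h4, hM.eq, mul_add, mul_add]
        refine MemI.add (MemI.add ?_ ?_) ?_
        · refine MemI.mul_left _ (MemI.sum _ fun i _ => MemI.sum _ fun j _ => ?_)
          refine MemI.mul_left _ (MemI.mul_left _ ?_)
          exact memI_g (g := fun j => pderiv j F) j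
        · obtain ⟨a, r', w', h5⟩ := hs'r
          have h6 : s' * ((p : MvPolynomial ι ℤ) ^ (N + 1) * r) =
              (p : MvPolynomial ι ℤ) ^ (N + 1) * (s' * r) := by ring
          rw [h6, h5]
          refine ⟨fun j => (p : MvPolynomial ι ℤ) ^ (N + 1) * a j, r',
            (p : MvPolynomial ι ℤ) ^ (N + 1) * w', ?_⟩
          rw [mul_add, mul_add, Finset.mul_sum]
          congr 1
          · congr 1
            · exact Finset.sum_congr rfl fun j _ => by ring
            · ring
          · ring
        · exact (memI_X.mul_left w).mul_left s' |> fun h => by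
            have h7 : s' * ((X i₀ - 1) * w) = s' * (w * (X i₀ - 1)) := by ring
            rw [h7]; exact h
      obtain ⟨s'', q', r', w', hM'⟩ := h.exists_morse (s := s' * s)
        (by rw [map_mul]; exact mul_ne_zero hs' hM.s0) h3
      exact ⟨N + 1 + 1, s'', q', r', w', by omega, le_rfl, hM', fun h => absurd h (by omega)⟩
    · exact ⟨m, s, q, r, w, h1, by omega, hM, fun _ => hr0⟩

end Pool.Agent.H96.Nod
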