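import Pool.Agent.H96.Nod.Chart2
import Mathlib.RingTheory.MvPolynomial.EulerIdentity

/-!
# The linear systems and their generators
-/

set_option autoImplicit false
set_option linter.unusedSectionVars false

namespace Pool.Agent.H96.Nod

open MvPolynomial Pool.Agent.H96.VL Pool.Agent.H96.Reg IsLocalRing
open scoped Pointwise

variable {ι : Type} [Fintype ι] [DecidableEq ι] {K : Type} [Field K] [DecidableEq K]

theorem aeval_smul_of_isHomogeneous {φ : MvPolynomial ι ℤ} {n : ℕ} (h : φ.IsHomogeneous n)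
    (c : K) (t : ι → K) : aeval (fun i => c * t i) φ = c ^ n * aeval t φ := by
  rw [aeval_def, aeval_def, eval₂_eq, eval₂_eq, Finset.mul_sum]
  refine Finset.sum_congr rfl fun m hm => ?_
  have h1 : m.degree = n := by
    have := h (mem_support_iff.mp hm)
    rwa [Finsupp.degree_eq_weight_one]
  have h2 : ∏ i ∈ m.support, (c * t i) ^ m i = c ^ n * ∏ i ∈ m.support, t i ^ m i := by
    rw [← h1, Finsupp.degree_apply, ← Finset.prod_pow_eq_pow_sum, ← Finset.prod_mul_distrib]
    exact Finset.prod_congr rfl fun i _ => mul_pow _ _ _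
  rw [h2]; ring

/-- The coordinates. -/
def XS (x : ι → K) : Finset K := (Finset.univ.image x).erase 0

/-- The partial derivatives. -/
noncomputable def GS (F : MvPolynomial ι ℤ) (x : ι → K) : Finset K :=
  (Finset.univ.image fun i => aeval x (pderiv i F)).erase 0

/-- The ideals `(g_i, N ^ l)`. -/
noncomputable def JS (F : MvPolynomial ι ℤ) (x : ι → K) (N d l : ℕ) : Finset K :=
  GS F x ∪ {(N : K) ^ l} * XS x ^ (d - 1)

/-- The total system. -/
noncomputable def Tot (F : MvPolynomial ι ℤ) (x : ι → K) (N d M : ℕ) : Finset K :=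
  XS x * ∏ l ∈ Finset.range M, JS F x N d l

/-- The data of a chart: `x = c t` with `t i₀ = 1`. -/
structure Ctr (V : ValuationSubring K) (F : MvPolynomial ι ℤ) (x : ι → K) (d : ℕ) (i₀ : ι)
    (c : K) (t : ι → K) : Prop where
  hF : F.IsHomogeneous d
  c0 : c ≠ 0
  xt : x = fun i => c * t i
  t0 : t i₀ = 1
  vt : ∀ i, V.valuation (t i) ≤ 1
  Ft : aeval t F = 0

variable {V : ValuationSubring K} {R : Subring K} {F : MvPolynomial ι ℤ} {x : ι → K} {d : ℕ} {i₀ : ι}
  {c : K} {t : ι → K}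

theorem Ctr.gx (h : Ctr V F x d i₀ c t) (i : ι) :
    aeval x (pderiv i F) = c ^ (d - 1) * aeval t (pderiv i F) := by
  rw [h.xt]
  exact aeval_smul_of_isHomogeneous h.hF.pderiv c t

theorem Ctr.vg (h : Ctr V F x d i₀ c t) (f : MvPolynomial ι ℤ) : V.valuation (aeval t f) ≤ 1 :=
  (resv_aeval t h.vt f).1

theorem Ctr.xi (h : Ctr V F x d i₀ c t) : x i₀ = c := by
  rw [h.xt]
  show c * t i₀ = c
  rw [h.t0, mul_one]

theorem Ctr.mem_XS (h : Ctr V F x d i₀ c t) : c ∈ XS x := by
  rw [XS, Finset.mem_erase]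
  refine ⟨h.c0, ?_⟩
  rw [← h.xi]
  exact Finset.mem_image_of_mem _ (Finset.mem_univ _)

theorem aeval_mem {R : Subring K} {t : ι → K} (ht : ∀ i, t i ∈ R) (f : MvPolynomial ι ℤ) :
    aeval t f ∈ R := by
  induction f using MvPolynomial.induction_on with
  | C n => rw [aeval_C, algebraMap_int_eq, eq_intCast]; exact intCast_mem R n
  | add P Q hP hQ => rw [map_add]; exact R.add_mem hP hQ
  | mul_X P i hP => rw [map_mul, aeval_X]; exact R.mul_mem hP (ht i)

/-- Euler's identity. -/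
theorem Ctr.euler (h : Ctr V F x d i₀ c t) :
    aeval t (pderiv i₀ F) = -∑ i : Aff i₀, t i * aeval t (pderiv (i : ι) F) := by
  have h1 := congrArg (aeval t) h.hF.sum_X_mul_pderiv
  rw [map_sum, map_nsmul, h.Ft, smul_zero] at h1
  rw [← Finset.add_sum_erase _ _ (Finset.mem_univ i₀), map_mul, aeval_X, h.t0, one_mul] at h1
  have h2 : ∑ i ∈ Finset.univ.erase i₀, aeval t (X i * pderiv i F) =
      ∑ i : Aff i₀, t i * aeval t (pderiv (i : ι) F) := by
    have h3 : (Finset.univ.erase i₀) = Finset.univ.filter (fun i => i ≠ i₀) := by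
      ext i; simp
    rw [h3, Finset.sum_subtype_eq_sum_filter (p := fun i => i ≠ i₀) (s := Finset.univ)
      (fun i => aeval t (X i * pderiv i F)) |>.symm, Finset.subtype_univ]
    refine Finset.sum_congr rfl fun i _ => ?_
    rw [map_mul, aeval_X]
  rw [h2] at h1
  exact eq_neg_of_add_eq_zero_left h1

theorem Ctr.gen_XS (h : Ctr V F x d i₀ c t) (ht : ∀ i, t i ∈ R) : Gen R (XS x) c := by
  refine ⟨h.c0, ?_, c, h.mem_XS, by rw [div_self h.c0]; exact R.one_mem, h.c0⟩
  intro g hg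
  obtain ⟨i, _, rfl⟩ := Finset.mem_image.mp (Finset.mem_of_mem_erase hg)
  rw [h.xt]
  show c * t i / c ∈ R
  rw [mul_div_cancel_left₀ _ h.c0]
  exact ht i

theorem Ctr.t_mem_of_prin (h : Ctr V F x d i₀ c t) (hR : VLocal V R) (hP : Prin R (XS x)) (i : ι) :
    t i ∈ R := by
  obtain ⟨T, hT⟩ := hP
  have h1 : Gen R (XS x) c := by
    refine hT.of_max hR h.mem_XS ?_
    intro g hg
    obtain ⟨i, _, rfl⟩ := Finset.mem_image.mp (Finset.mem_of_mem_erase hg)
    rw [h.xt]
    show V.valuation (c * t i) ≤ _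
    rw [map_mul]
    calc V.valuation c * V.valuation (t i) ≤ V.valuation c * 1 := mul_le_mul' le_rfl (h.vt i)
      _ = _ := mul_one _
  by_cases hti : t i = 0
  · rw [hti]; exact R.zero_mem
  · have h2 : c * t i ∈ XS x := by
      rw [XS, Finset.mem_erase]
      refine ⟨mul_ne_zero h.c0 hti, ?_⟩
      have : c * t i = x i := by rw [h.xt]
      rw [this]
      exact Finset.mem_image_of_mem _ (Finset.mem_univ _)
    have h3 := h1.mem _ h2
    rwa [mul_div_cancel_left₀ _ h.c0] at h3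

section J

variable {N l : ℕ}

/-- A generator of `J_l` among the partial derivatives. -/
theorem Ctr.gen_JS_g (h : Ctr V F x d i₀ c t) (hN : (N : K) ≠ 0) (ht : ∀ i, t i ∈ R) {i₁ : ι}
    (hg1 : aeval t (pderiv i₁ F) ≠ 0)
    (hg : ∀ i, aeval t (pderiv i F) / aeval t (pderiv i₁ F) ∈ R)
    (hNg : (N : K) ^ l / aeval t (pderiv i₁ F) ∈ R) :
    Gen R (JS F x N d l) (aeval t (pderiv i₁ F) * c ^ (d - 1)) := by
  have hc := pow_ne_zero (d - 1) h.c0
  have g2 : Gen R ({(N : K) ^ l} * XS x ^ (d - 1)) ((N : K) ^ l * c ^ (d - 1)) :=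
    (Gen.singleton (pow_ne_zero _ hN)).mul ((h.gen_XS ht).pow _)
  refine ⟨mul_ne_zero hg1 hc, ?_, ?_⟩
  · intro g hgm
    rcases Finset.mem_union.mp hgm with h1 | h1
    · obtain ⟨i, _, rfl⟩ := Finset.mem_image.mp (Finset.mem_of_mem_erase h1)
      rw [h.gx, mul_comm (c ^ (d - 1)), mul_div_mul_right _ _ hc]
      exact hg i
    · refine g2.div_mem_trans ?_ g h1
      rw [mul_div_mul_right _ _ hc]
      exact hNg
  · refine ⟨aeval x (pderiv i₁ F), Finset.mem_union_left _ ?_, ?_, ?_⟩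
    · rw [GS, Finset.mem_erase]
      refine ⟨?_, Finset.mem_image_of_mem _ (Finset.mem_univ i₁)⟩
      rw [h.gx]; exact mul_ne_zero hc hg1
    · rw [h.gx, mul_comm, div_self (mul_ne_zero hc hg1)]
      exact R.one_mem
    · rw [h.gx]; exact mul_ne_zero hc hg1

/-- The generator `N ^ l` of `J_l`. -/
theorem Ctr.gen_JS_N (h : Ctr V F x d i₀ c t) (hN : (N : K) ≠ 0) (ht : ∀ i, t i ∈ R)
    (hg : ∀ i, aeval t (pderiv i F) / (N : K) ^ l ∈ R) :
    Gen R (JS F x N d l) ((N : K) ^ l * c ^ (d - 1)) := by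
  have hc := pow_ne_zero (d - 1) h.c0
  have g2 : Gen R ({(N : K) ^ l} * XS x ^ (d - 1)) ((N : K) ^ l * c ^ (d - 1)) :=
    (Gen.singleton (pow_ne_zero _ hN)).mul ((h.gen_XS ht).pow _)
  refine g2.union_left ?_
  intro g hgm
  obtain ⟨i, _, rfl⟩ := Finset.mem_image.mp (Finset.mem_of_mem_erase hgm)
  rw [h.gx, mul_comm (c ^ (d - 1)), mul_div_mul_right _ _ hc]
  exact hg i

theorem Ctr.val_JS (h : Ctr V F x d i₀ c t) (hN : (N : K) ≠ 0) {g : K} (hg : g ∈ JS F x N d l) :
    (∃ i, g = c ^ (d - 1) * aeval t (pderiv i F)) ∨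
      V.valuation g ≤ V.valuation ((N : K) ^ l * c ^ (d - 1)) := by
  rcases Finset.mem_union.mp hg with h1 | h1
  · obtain ⟨i, _, rfl⟩ := Finset.mem_image.mp (Finset.mem_of_mem_erase h1)
    left
    exact ⟨i, h.gx i⟩
  · right
    have g2 : Gen V.toSubring ({(N : K) ^ l} * XS x ^ (d - 1)) ((N : K) ^ l * c ^ (d - 1)) :=
      (Gen.singleton (pow_ne_zero _ hN)).mul
        ((h.gen_XS fun i => (V.valuation_le_one_iff _).mp (h.vt i)).pow _)
    have hV : VLocal V V.toSubring := by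
      refine ⟨fun x hx => (V.valuation_le_one_iff _).mpr hx, fun x _ hx1 => ?_⟩
      have : V.valuation x⁻¹ ≤ 1 := by rw [map_inv₀, hx1, inv_one]
      exact (V.valuation_le_one_iff _).mp this
    exact g2.val_le hV h1

theorem Ctr.of_prin_JS_g (h : Ctr V F x d i₀ c t) (hR : VLocal V R) (hN : (N : K) ≠ 0) {i₁ : ι}
    (hg1 : aeval t (pderiv i₁ F) ≠ 0)
    (hg : ∀ i, V.valuation (aeval t (pderiv i F)) ≤ V.valuation (aeval t (pderiv i₁ F)))
    (hNg : V.valuation ((N : K) ^ l) ≤ V.valuation (aeval t (pderiv i₁ F)))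
    (hP : Prin R (JS F x N d l)) :
    (∀ i, aeval t (pderiv i F) / aeval t (pderiv i₁ F) ∈ R) ∧
      (N : K) ^ l / aeval t (pderiv i₁ F) ∈ R := by
  have hc := pow_ne_zero (d - 1) h.c0
  obtain ⟨T, hT⟩ := hP
  have hmem : ∀ i, aeval t (pderiv i F) ≠ 0 → c ^ (d - 1) * aeval t (pderiv i F) ∈ JS F x N d l := by
    intro i hi
    refine Finset.mem_union_left _ ?_
    rw [GS, Finset.mem_erase]
    refine ⟨mul_ne_zero hc hi, ?_⟩
    rw [← h.gx]
    exact Finset.mem_image_of_mem (fun i => aeval x (pderiv i F)) (Finset.mem_univ i)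
  have hgen : Gen R (JS F x N d l) (c ^ (d - 1) * aeval t (pderiv i₁ F)) := by
    refine hT.of_max hR (hmem i₁ hg1) ?_
    intro g hgm
    rcases h.val_JS hN hgm with ⟨i, rfl⟩ | h1
    · rw [map_mul, map_mul]
      exact mul_le_mul' le_rfl (hg i)
    · refine h1.trans ?_
      rw [map_mul, map_mul, mul_comm]
      exact mul_le_mul' le_rfl hNg
  constructor
  · intro i
    by_cases hi : aeval t (pderiv i F) = 0
    · rw [hi, zero_div]; exact R.zero_mem
    · have h1 := hgen.mem _ (hmem i hi)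
      rwa [mul_div_mul_left _ _ hc] at h1
  · have h2 : (N : K) ^ l * c ^ (d - 1) ∈ JS F x N d l :=
      Finset.mem_union_right _ (Finset.mul_mem_mul (Finset.mem_singleton_self _)
        (Finset.pow_mem_pow h.mem_XS))
    have h1 := hgen.mem _ h2
    rwa [mul_comm (c ^ (d - 1)), mul_div_mul_right _ _ hc] at h1

theorem Ctr.of_prin_JS_N (h : Ctr V F x d i₀ c t) (hR : VLocal V R) (hN : (N : K) ≠ 0)
    (hg : ∀ i, V.valuation (aeval t (pderiv i F)) ≤ V.valuation ((N : K) ^ l))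
    (hP : Prin R (JS F x N d l)) (i : ι) : aeval t (pderiv i F) / (N : K) ^ l ∈ R := by
  have hc := pow_ne_zero (d - 1) h.c0
  obtain ⟨T, hT⟩ := hP
  have h2 : (N : K) ^ l * c ^ (d - 1) ∈ JS F x N d l :=
    Finset.mem_union_right _ (Finset.mul_mem_mul (Finset.mem_singleton_self _)
      (Finset.pow_mem_pow h.mem_XS))
  have hgen : Gen R (JS F x N d l) ((N : K) ^ l * c ^ (d - 1)) := by
    refine hT.of_max hR h2 ?_
    intro g hgm
    rcases h.val_JS hN hgm with ⟨i, rfl⟩ | h1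
    · rw [map_mul, map_mul, mul_comm]
      exact mul_le_mul' (hg i) le_rfl
    · exact h1
  by_cases hi : aeval t (pderiv i F) = 0
  · rw [hi, zero_div]; exact R.zero_mem
  · have h3 : c ^ (d - 1) * aeval t (pderiv i F) ∈ JS F x N d l := by
      refine Finset.mem_union_left _ ?_
      rw [GS, Finset.mem_erase]
      refine ⟨mul_ne_zero hc hi, ?_⟩
      rw [← h.gx]
      exact Finset.mem_image_of_mem (fun i => aeval x (pderiv i F)) (Finset.mem_univ i)
    have h1 := hgen.mem _ h3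
    rwa [mul_comm (c ^ (d - 1)), mul_div_mul_right _ _ hc] at h1

end J

omit [DecidableEq K] in
theorem nz_mul [DecidableEq K] {s t : Finset K} (hs : (0 : K) ∉ s) (ht : (0 : K) ∉ t) :
    (0 : K) ∉ s * t := by
  intro h
  obtain ⟨a, ha, b, hb, hab⟩ := Finset.mem_mul.mp h
  rcases mul_eq_zero.mp hab with h3 | h3
  · exact hs (h3 ▸ ha)
  · exact ht (h3 ▸ hb)

theorem nz_pow {s : Finset K} (hs : (0 : K) ∉ s) (n : ℕ) : (0 : K) ∉ s ^ n := by
  induction n with
  | zero =>
    rw [pow_zero, Finset.mem_one]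
    exact zero_ne_one
  | succ n ih =>
    rw [pow_succ]
    exact nz_mul ih hs

theorem nz_prod {κ : Type} (A : Finset κ) {s : κ → Finset K} (hs : ∀ c ∈ A, (0 : K) ∉ s c) :
    (0 : K) ∉ ∏ c ∈ A, s c := by
  classical
  induction A using Finset.induction_on with
  | empty =>
    rw [Finset.prod_empty, Finset.mem_one]
    exact zero_ne_one
  | insert a A ha ih =>
    rw [Finset.prod_insert ha]
    exact nz_mul (hs a (Finset.mem_insert_self a A)) (ih fun c hc => hs c (Finset.mem_insert_of_mem hc))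

theorem nz_union {s t : Finset K} (hs : (0 : K) ∉ s) (ht : (0 : K) ∉ t) : (0 : K) ∉ s ∪ t := by
  rw [Finset.mem_union]
  exact fun h => h.elim hs ht

theorem zero_notMem_Tot {N M : ℕ} (hN : (N : K) ≠ 0) : (0 : K) ∉ Tot F x N d M := by
  refine nz_mul (Finset.notMem_erase _ _) (nz_prod _ fun l _ => nz_union (Finset.notMem_erase _ _)
    (nz_mul ?_ (nz_pow (Finset.notMem_erase _ _) _)))
  rw [Finset.mem_singleton]
  exact (pow_ne_zero _ hN).symm

end Pool.Agent.H96.Nod
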